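import Mathlib
import Pool.Agent.Helper112.LS
import Pool.Agent.Helper923.PNT

set_option autoImplicit false

open Finset Filter Topology
open Pool.Agent.Helper112

namespace Pool.Agent.H57R3.FC

/-- the primes `2 < p ≤ F`, `p = a mod 15` -/
def PF (a F : ℕ) : Finset ℕ := (Icc 1 F).filter (fun p => p.Prime ∧ p % 15 = a ∧ 2 < p)

lemma unit2 {a : ℕ} (ha : a = 2 ∨ a = 7) : IsUnit (a : ZMod 15) := by
  rcases ha with rfl | rfl <;> decide

lemma prime_count (a : ℕ) (ha : a = 2 ∨ a = 7) :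
    ∃ F0 : ℕ, 2 ≤ F0 ∧ ∀ F : ℕ, F0 ≤ F → (F : ℝ) / 32 ≤ (PF a F).card * Real.log F := by
  have h := Pool.Agent.Helper923.PNT.pnt_residueClass (unit2 ha)
  have ht : (Nat.totient 15 : ℝ)⁻¹ = 1 / 8 := by
    have : Nat.totient 15 = 8 := by decide
    rw [this]; norm_num
  rw [ht] at h
  have h1 : ∀ᶠ x : ℝ in atTop, 1 / 16 < (∑ k ∈ Icc 1 ⌊x⌋₊,
      ArithmeticFunction.vonMangoldt.residueClass (a : ZMod 15) k) / x :=
    h.eventually (lt_mem_nhds (by norm_num))
  obtain ⟨C, hC⟩ := Chebyshev.psi_sub_theta_le_mul_sqrt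
  obtain ⟨x0, hx0⟩ := eventually_atTop.1 h1
  refine ⟨⌈x0⌉₊ + ⌈(64 * (|C| + 1)) ^ 2⌉₊ + 2, by omega, fun F hF => ?_⟩
  have hFx : x0 ≤ F := by
    have : ⌈x0⌉₊ ≤ F := by omega
    exact (Nat.le_ceil x0).trans (by exact_mod_cast this)
  have hFC : (64 * (|C| + 1)) ^ 2 ≤ (F : ℝ) := by
    have : ⌈(64 * (|C| + 1)) ^ 2⌉₊ ≤ F := by omega
    exact (Nat.le_ceil _).trans (by exact_mod_cast this)
  have hF2 : 2 ≤ F := by omega
  have hF0 : (0 : ℝ) < F := by
    have : 0 < F := by omega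
    exact_mod_cast this
  have h2 := hx0 F hFx
  rw [Nat.floor_natCast, lt_div_iff₀ hF0] at h2
  have h3 : ∑ k ∈ Icc 1 F, ArithmeticFunction.vonMangoldt.residueClass (a : ZMod 15) k ≤
      (PF a F).card * Real.log F + (Chebyshev.psi F - Chebyshev.theta F) + 1 := by
    rw [Chebyshev.psi_sub_theta_eq_sum_not_prime, Nat.floor_natCast]
    have e1 : ((PF a F).card : ℝ) * Real.log F = ∑ k ∈ Icc 1 F, if k.Prime ∧ k % 15 = a ∧ 2 < k then Real.log F else 0 := by
      rw [← sum_filter, sum_const, nsmul_eq_mul]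
      rfl
    have e2 : ∑ n ∈ Ioc 0 F with ¬ n.Prime, ArithmeticFunction.vonMangoldt n =
        ∑ k ∈ Icc 1 F, if ¬ k.Prime then ArithmeticFunction.vonMangoldt k else 0 := by
      rw [sum_filter]
      rfl
    have e3 : (1 : ℝ) ≥ ∑ k ∈ Icc 1 F, if k = 2 then Real.log 2 else 0 := by
      rw [sum_ite_eq']
      split_ifs
      · linarith [Real.log_two_lt_d9]
      · norm_num
    rw [e1, e2]
    refine le_trans ?_ (add_le_add_right e3 _)
    rw [← sum_add_distrib, ← sum_add_distrib]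
    apply sum_le_sum
    intro k hk
    rw [mem_Icc] at hk
    have hΛ : 0 ≤ ArithmeticFunction.vonMangoldt k := ArithmeticFunction.vonMangoldt_nonneg
    have hlogF : 0 ≤ Real.log F := Real.log_nonneg (by exact_mod_cast (by omega : 1 ≤ F))
    by_cases hp : k.Prime
    · by_cases h15 : ((k : ZMod 15) = (a : ZMod 15))
      · have h15' : k % 15 = a := by
          rw [ZMod.natCast_eq_natCast_iff'] at h15
          rcases ha with rfl | rfl <;> simpa using h15
        by_cases hk2 : k = 2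
        · subst hk2
          have : ArithmeticFunction.vonMangoldt.residueClass (a : ZMod 15) 2 ≤ Real.log 2 := by
            refine (ArithmeticFunction.vonMangoldt.residueClass_le _ _).trans ?_
            rw [ArithmeticFunction.vonMangoldt_apply_prime hp]
            norm_num
          simp only [lt_irrefl, and_false, if_false, hp, not_true, if_true]
          linarith
        · have hk3 : 2 < k := lt_of_le_of_ne hp.two_le (Ne.symm hk2)
          rw [if_pos ⟨hp, h15', hk3⟩, if_neg (not_not.2 hp), if_neg hk2]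
          refine (ArithmeticFunction.vonMangoldt.residueClass_le _ _).trans ?_
          rw [ArithmeticFunction.vonMangoldt_apply_prime hp]
          have : Real.log k ≤ Real.log F := Real.log_le_log (by exact_mod_cast hp.pos) (by exact_mod_cast hk.2)
          linarith
      · have : ArithmeticFunction.vonMangoldt.residueClass (a : ZMod 15) k = 0 := by
          apply Set.indicator_of_notMem
          exact h15
        rw [this]
        have h5 : 0 ≤ Real.log 2 := Real.log_nonneg (by norm_num)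
        split_ifs <;> positivity
    · rw [if_neg (fun h => hp h.1), if_pos hp]
      have h5 : 0 ≤ Real.log 2 := Real.log_nonneg (by norm_num)
      have := ArithmeticFunction.vonMangoldt.residueClass_le (a : ZMod 15) k
      split_ifs <;> linarith
  have h4 := hC F
  have h5 : |C| + 1 ≤ Real.sqrt F / 64 := by
    rw [le_div_iff₀ (by norm_num : (0:ℝ) < 64)]
    apply Real.le_sqrt_of_sq_le
    have e : ((|C| + 1) * 64) ^ 2 = (64 * (|C| + 1)) ^ 2 := by ring
    rw [e]
    exact hFC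
  have hs1 : 1 ≤ Real.sqrt F := Real.one_le_sqrt.2 (by exact_mod_cast (by omega : 1 ≤ F))
  have h6 : C * Real.sqrt F + 1 ≤ F / 64 := by
    have e : (F : ℝ) = Real.sqrt F * Real.sqrt F := (Real.mul_self_sqrt hF0.le).symm
    have h7 : C * Real.sqrt F + 1 ≤ (|C| + 1) * Real.sqrt F := by
      have := le_abs_self C
      nlinarith
    have h8 : (|C| + 1) * Real.sqrt F ≤ Real.sqrt F / 64 * Real.sqrt F :=
      mul_le_mul_of_nonneg_right h5 (by linarith)
    calc C * Real.sqrt F + 1 ≤ Real.sqrt F / 64 * Real.sqrt F := h7.trans h8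
      _ = (Real.sqrt F * Real.sqrt F) / 64 := by ring
      _ = F / 64 := by rw [← e]
  linarith

lemma orth (p : ℕ) (hp : 0 < p) (k : ℤ) :
    ∑ a ∈ range p, ee ((k : ℝ) * a / p) = if (p : ℤ) ∣ k then (p : ℂ) else 0 := by
  have hp' : (p : ℝ) ≠ 0 := by positivity
  have h1 : ∀ a : ℕ, ee ((k : ℝ) * a / p) = ee ((k : ℝ) / p) ^ a := by
    intro a
    rw [← ls_ee_nat_mul]
    congr 1
    ring
  simp only [h1]
  split_ifs with h
  · obtain ⟨m, rfl⟩ := h
    have : ee ((((p : ℤ) * m : ℤ) : ℝ) / p) = 1 := by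
      have e : (((p : ℤ) * m : ℤ) : ℝ) / p = (m : ℝ) := by
        push_cast
        field_simp
      rw [e]
      exact ls_ee_int m
    rw [this]
    simp
  · have hne : ee ((k : ℝ) / p) ≠ 1 := by
      intro h1
      obtain ⟨m, hm⟩ := ls_ee_eq_one h1
      apply h
      refine ⟨m, ?_⟩
      rw [div_eq_iff hp'] at hm
      have : (k : ℝ) = ((p * m : ℤ) : ℝ) := by
        push_cast
        linarith
      exact_mod_cast this
    rw [geom_sum_eq hne]
    have : ee ((k : ℝ) / p) ^ p = 1 := by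
      rw [← ls_ee_nat_mul]
      have e : (p : ℝ) * ((k : ℝ) / p) = (k : ℝ) := by field_simp
      rw [e]
      exact ls_ee_int k
    rw [this]
    simp

lemma parseval (p : ℕ) (hp : 0 < p) (A : Finset ℕ) :
    ∑ a ∈ range p, ‖∑ n ∈ A, ee ((n : ℝ) * a / p)‖ ^ 2 =
      p * ((A ×ˢ A).filter (fun x => (p : ℤ) ∣ (x.1 : ℤ) - x.2)).card := by
  have key : ((∑ a ∈ range p, ‖∑ n ∈ A, ee ((n : ℝ) * a / p)‖ ^ 2 : ℝ) : ℂ) =
      ((p * ((A ×ˢ A).filter (fun x => (p : ℤ) ∣ (x.1 : ℤ) - x.2)).card : ℝ) : ℂ) := by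
    push_cast
    calc ∑ a ∈ range p, (‖∑ n ∈ A, ee ((n : ℝ) * a / p)‖ : ℂ) ^ 2
        = ∑ a ∈ range p, ∑ x ∈ A ×ˢ A, ee ((((x.1 : ℤ) - x.2 : ℤ) : ℝ) * a / p) := by
          apply sum_congr rfl
          intro a _
          rw [← Complex.mul_conj', map_sum, sum_mul_sum, ← sum_product']
          apply sum_congr rfl
          intro x _
          rw [ls_conj_ee, ← ls_ee_add]
          congr 1
          push_cast
          ring
      _ = ∑ x ∈ A ×ˢ A, ∑ a ∈ range p, ee ((((x.1 : ℤ) - x.2 : ℤ) : ℝ) * a / p) := sum_comm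
      _ = ∑ x ∈ A ×ˢ A, if (p : ℤ) ∣ (x.1 : ℤ) - x.2 then (p : ℂ) else 0 := by
          apply sum_congr rfl
          intro x _
          exact orth p hp _
      _ = _ := by
          rw [← sum_filter, sum_const, nsmul_eq_mul, mul_comm]
  exact_mod_cast key

/-- many coincidences modulo `p` if `A` lies in few classes -/
lemma coincidences (p : ℕ) [NeZero p] (A : Finset ℕ) (H : Finset (ZMod p)) (hA : ∀ n ∈ A, (n : ZMod p) ∈ H) :
    (A.card : ℝ) ^ 2 ≤ H.card * ((A ×ˢ A).filter (fun x => (p : ℤ) ∣ (x.1 : ℤ) - x.2)).card := by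
  have h1 : A.card = ∑ h ∈ H, (A.filter (fun n : ℕ => (n : ZMod p) = h)).card :=
    card_eq_sum_card_fiberwise hA
  have h2 : ((A ×ˢ A).filter (fun x => (p : ℤ) ∣ (x.1 : ℤ) - x.2)).card =
      ∑ h ∈ H, (A.filter (fun n : ℕ => (n : ZMod p) = h)).card ^ 2 := by
    rw [card_eq_sum_card_fiberwise (f := fun x : ℕ × ℕ => (x.1 : ZMod p)) (t := H)]
    · apply sum_congr rfl
      intro h _
      rw [sq, ← card_product]
      congr 1
      ext x
      simp only [mem_filter, mem_product]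
      constructor
      · rintro ⟨⟨⟨h1, h2⟩, h3⟩, h4⟩
        refine ⟨⟨h1, h4⟩, h2, ?_⟩
        have h5 : ((((x.1 : ℤ) - x.2 : ℤ)) : ZMod p) = 0 := (ZMod.intCast_zmod_eq_zero_iff_dvd _ _).2 h3
        push_cast at h5
        rw [← h4]
        exact (sub_eq_zero.1 h5).symm
      · rintro ⟨⟨h1, h4⟩, h2, h5⟩
        refine ⟨⟨⟨h1, h2⟩, ?_⟩, h4⟩
        rw [← ZMod.intCast_zmod_eq_zero_iff_dvd]
        push_cast
        rw [h4, h5, sub_self]
    · intro x hx
      simp only [coe_filter, mem_product, Set.mem_setOf_eq] at hx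
      exact hA _ hx.1.1
  rw [h2]
  have h3 : (A.card : ℝ) = ∑ h ∈ H, ((A.filter (fun n : ℕ => (n : ZMod p) = h)).card : ℝ) := by
    exact_mod_cast h1
  rw [h3]
  push_cast
  exact sq_sum_le_card_mul_sum_sq

/-- large sieve: `A` in at most `p / 2 + 1` classes modulo each `p` -/
lemma sieve (V F : ℕ) (A : Finset ℕ) (hA : A ⊆ Icc 1 V) (PP : Finset ℕ) (hPP : ∀ p ∈ PP, p.Prime ∧ 2 < p ∧ p ≤ F)
    (hcl : ∀ p ∈ PP, ∃ H : Finset (ZMod p), H.card ≤ p / 2 + 1 ∧ ∀ n ∈ A, (n : ZMod p) ∈ H) :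
    (A.card : ℝ) * PP.card ≤ 12 * (V + (F : ℝ) ^ 2) := by
  rcases A.eq_empty_or_nonempty with rfl | hne
  · simp only [card_empty, Nat.cast_zero, zero_mul]
    positivity
  have hA0 : (0 : ℝ) < A.card := by exact_mod_cast hne.card_pos
  have hls := additive_large_sieve V F (fun n => if n ∈ A then 1 else 0)
  have hs : ∀ x : ℕ → ℂ, ∑ n ∈ Icc 1 V, (if n ∈ A then (1 : ℂ) else 0) * x n = ∑ n ∈ A, x n := by
    intro x
    simp only [ite_mul, one_mul, zero_mul]
    rw [← sum_filter]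
    congr 1
    ext n
    simp only [mem_filter]
    exact ⟨fun h => h.2, fun h => ⟨hA h, h⟩⟩
  have hr : ∑ n ∈ Icc 1 V, ‖(if n ∈ A then (1 : ℂ) else 0)‖ ^ 2 = A.card := by
    have : ∀ n ∈ Icc 1 V, ‖(if n ∈ A then (1 : ℂ) else 0)‖ ^ 2 = if n ∈ A then (1 : ℝ) else 0 := by
      intro n _
      split_ifs <;> simp
    rw [sum_congr rfl this, ← sum_filter, sum_const, nsmul_eq_mul, mul_one]
    congr 2
    ext n
    simp only [mem_filter]
    exact ⟨fun h => h.2, fun h => ⟨hA h, h⟩⟩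
  rw [hr] at hls
  simp only [hs] at hls
  have hlow : ∀ p ∈ PP, (A.card : ℝ) ^ 2 / 2 ≤
      ∑ a ∈ (range p).filter (fun a => a.Coprime p), ‖∑ n ∈ A, ee (n * a / p)‖ ^ 2 := by
    intro p hp
    obtain ⟨hpr, hp2, _⟩ := hPP p hp
    haveI : NeZero p := ⟨hpr.ne_zero⟩
    obtain ⟨H, hH, hAH⟩ := hcl p hp
    have h1 := parseval p hpr.pos A
    have h2 := coincidences p A H hAH
    set E : ℝ := (((A ×ˢ A).filter (fun x => (p : ℤ) ∣ (x.1 : ℤ) - x.2)).card : ℝ) with hE
    have h3 : ∑ a ∈ range p, ‖∑ n ∈ A, ee ((n : ℝ) * a / p)‖ ^ 2 =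
        (A.card : ℝ) ^ 2 + ∑ a ∈ (range p).filter (fun a => a.Coprime p), ‖∑ n ∈ A, ee (n * a / p)‖ ^ 2 := by
      have e0 : range p = insert 0 ((range p).filter (fun a => a.Coprime p)) := by
        ext a
        simp only [mem_range, mem_insert, mem_filter]
        constructor
        · intro ha
          rcases Nat.eq_zero_or_pos a with h | h
          · exact Or.inl h
          · exact Or.inr ⟨ha, Nat.Coprime.symm ((Nat.Prime.coprime_iff_not_dvd hpr).2 (Nat.not_dvd_of_pos_of_lt h ha))⟩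
        · rintro (h | h)
          · rw [h]; exact hpr.pos
          · exact h.1
      have e1 : 0 ∉ (range p).filter (fun a => a.Coprime p) := by
        simp only [mem_filter, not_and]
        intro _ h
        rw [Nat.coprime_zero_left] at h
        omega
      conv_lhs => rw [e0]
      rw [sum_insert e1]
      congr 1
      simp [ls_ee_zero]
    have hp3 : (3 : ℝ) ≤ p := by exact_mod_cast hp2
    have hodd : p / 2 + 1 ≤ (p + 1) / 2 := by
      rcases hpr.eq_two_or_odd with h | h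
      · omega
      · omega
    have hHr : (H.card : ℝ) ≤ ((p : ℝ) + 1) / 2 := by
      have : H.card ≤ (p + 1) / 2 := hH.trans hodd
      have h5 : (H.card : ℝ) ≤ (((p + 1) / 2 : ℕ) : ℝ) := by exact_mod_cast this
      refine h5.trans ?_
      have := @Nat.cast_div_le ℝ _ _ _ (p + 1) 2
      push_cast at this
      exact this
    have hE0 : 0 ≤ E := Nat.cast_nonneg _
    have h6 : (A.card : ℝ) ^ 2 ≤ ((p : ℝ) + 1) / 2 * E := h2.trans (mul_le_mul_of_nonneg_right hHr hE0)
    have h7 : (A.card : ℝ) ^ 2 * (3 / 2) ≤ p * E := by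
      have : (A.card : ℝ) ^ 2 * (2 * p / (p + 1)) ≤ p * E := by
        rw [mul_div_assoc', div_le_iff₀ (by linarith)]
        nlinarith
      refine le_trans (mul_le_mul_of_nonneg_left ?_ (by positivity)) this
      rw [div_le_div_iff₀ (by norm_num) (by linarith)]
      linarith
    rw [h1] at h3
    linarith
  have h8 : ∑ p ∈ PP, (A.card : ℝ) ^ 2 / 2 ≤ 6 * (V + (F : ℝ) ^ 2) * A.card := by
    refine (sum_le_sum hlow).trans (le_trans ?_ hls)
    apply sum_le_sum_of_subset_of_nonneg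
    · intro p hp
      obtain ⟨h1, _, h3⟩ := hPP p hp
      exact mem_Icc.2 ⟨h1.pos, h3⟩
    · intro _ _ _
      positivity
  rw [sum_const, nsmul_eq_mul] at h8
  have h9 : (A.card : ℝ) * ((A.card : ℝ) * PP.card) ≤ A.card * (12 * (V + (F : ℝ) ^ 2)) := by nlinarith
  exact le_of_mul_le_mul_left h9 hA0

end Pool.Agent.H57R3.FC
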