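import Mathlib
import Pool.Agent.H57R3.FC.A
import Pool.Agent.H510R2.Div
import Pool.Agent.H383.Reps

set_option autoImplicit false

open Finset Filter Topology

namespace Pool.Agent.H57R3.FC

lemma card_squares (p : ℕ) [NeZero p] : (univ.filter (fun x : ZMod p => IsSquare x)).card ≤ p / 2 + 1 := by
  calc (univ.filter (fun x : ZMod p => IsSquare x)).card
      ≤ ((range (p / 2 + 1)).image (fun j : ℕ => ((j : ZMod p)) ^ 2)).card := by
        apply card_le_card
        intro x hx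
        obtain ⟨y, rfl⟩ := (mem_filter.1 hx).2
        rw [mem_image]
        refine ⟨y.valMinAbs.natAbs, ?_, ?_⟩
        · rw [mem_range]
          have := ZMod.natAbs_valMinAbs_le y
          omega
        · have h1 : ((y.valMinAbs.natAbs : ℕ) : ZMod p) ^ 2 = ((y.valMinAbs : ℤ) : ZMod p) ^ 2 := by
            have : (((y.valMinAbs.natAbs : ℕ) : ℤ) ^ 2) = y.valMinAbs ^ 2 := Int.natAbs_sq _
            have h2 := congrArg (fun z : ℤ => (z : ZMod p)) this
            push_cast at h2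
            simpa using h2
          rw [h1, ZMod.coe_valMinAbs, sq]
    _ ≤ (range (p / 2 + 1)).card := card_image_le
    _ = p / 2 + 1 := card_range _

lemma pow_inj_of_coprime (p : ℕ) (hp : p.Prime) (e : ℕ) (he : e.Coprime (p - 1)) (he0 : e ≠ 0) :
    Function.Injective (fun x : ZMod p => x ^ e) := by
  haveI : Fact p.Prime := ⟨hp⟩
  intro x y hxy
  simp only at hxy
  by_cases hx : x = 0
  · subst hx
    rw [zero_pow he0] at hxy
    exact (pow_eq_zero_iff he0).1 hxy.symm |>.symm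
  by_cases hy : y = 0
  · subst hy
    rw [zero_pow he0] at hxy
    exact (pow_eq_zero_iff he0).1 hxy
  have hcard : (Nat.card (ZMod p)ˣ).Coprime e := by
    rw [Nat.card_eq_fintype_card, ZMod.card_units]
    exact he.symm
  have hb := (Nat.Coprime.pow_left_bijective hcard).1
  have h1 : (Units.mk0 x hx) ^ e = (Units.mk0 y hy) ^ e := by
    ext
    simpa using hxy
  have h2 := hb h1
  have h3 := congrArg Units.val h2
  simpa using h3


lemma card_cubes (p : ℕ) [hp' : Fact p.Prime] (h3 : p % 3 = 1) :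
    ((univ : Finset (ZMod p)ˣ).image (fun x : (ZMod p)ˣ => x ^ 3)).card ≤ p / 2 := by
  have hp : p.Prime := hp'.1
  have hcard : Fintype.card (ZMod p)ˣ = p - 1 := by
    rw [ZMod.card_units_eq_totient, Nat.totient_prime hp]
  have hdvd : 3 ∣ Fintype.card (ZMod p)ˣ := by rw [hcard]; omega
  haveI : Fact (Nat.Prime 3) := ⟨Nat.prime_three⟩
  obtain ⟨ω, hω⟩ := exists_prime_orderOf_dvd_card 3 hdvd
  have hω3 : ω ^ 3 = 1 := by rw [← hω]; exact pow_orderOf_eq_one ω
  have hω1 : ω ≠ 1 := by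
    rintro rfl
    rw [orderOf_one] at hω
    omega
  have h := Finset.mul_card_image_le_card (s := (univ : Finset (ZMod p)ˣ)) (f := fun x : (ZMod p)ˣ => x ^ 3) (n := 2) (by
    intro c hc
    obtain ⟨x, _, rfl⟩ := mem_image.1 hc
    have hsub : ({x, ω * x} : Finset (ZMod p)ˣ) ⊆ univ.filter (fun y : (ZMod p)ˣ => y ^ 3 = x ^ 3) := by
      intro y hy
      simp only [mem_insert, mem_singleton] at hy
      rw [mem_filter]
      refine ⟨mem_univ _, ?_⟩
      rcases hy with rfl | rfl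
      · rfl
      · rw [mul_pow, hω3, one_mul]
    have hc2 : ({x, ω * x} : Finset (ZMod p)ˣ).card = 2 := by
      rw [card_pair]
      intro h
      apply hω1
      have : (1 : (ZMod p)ˣ) * x = ω * x := by rw [one_mul]; exact h
      exact (mul_right_cancel this).symm
    rw [← hc2]
    exact card_le_card hsub)
  rw [card_univ, hcard] at h
  omega

lemma card_cubes' (p : ℕ) [hp' : Fact p.Prime] (h3 : p % 3 = 1) :
    (univ.filter (fun x : ZMod p => ∃ z : ZMod p, x = z ^ 3)).card ≤ p / 2 + 1 := by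
  calc (univ.filter (fun x : ZMod p => ∃ z : ZMod p, x = z ^ 3)).card
      ≤ (insert (0 : ZMod p) (((univ : Finset (ZMod p)ˣ).image (fun x : (ZMod p)ˣ => x ^ 3)).image
          (fun x : (ZMod p)ˣ => (x : ZMod p)))).card := by
        apply card_le_card
        intro x hx
        obtain ⟨z, rfl⟩ := (mem_filter.1 hx).2
        rw [mem_insert]
        by_cases hz : z = 0
        · left; rw [hz]; simp
        · right
          rw [mem_image]
          refine ⟨(Units.mk0 z hz) ^ 3, mem_image_of_mem _ (mem_univ _), by simp⟩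
    _ ≤ _ := by
        refine (card_insert_le _ _).trans ?_
        have h1 := card_image_le (s := (univ : Finset (ZMod p)ˣ).image (fun x : (ZMod p)ˣ => x ^ 3))
          (f := fun x : (ZMod p)ˣ => (x : ZMod p))
        have h2 := card_cubes p h3
        omega

/-- few `y ≤ V` such that `N ± y ^ e` is an `m`-th power, `m = 2`, `e = 3` or `5`, or `m = 3`, `e = 5` -/
theorem value_sieve (m e : ℕ) (hme : (m = 2 ∧ (e = 3 ∨ e = 5)) ∨ (m = 3 ∧ e = 5)) {δ : ℝ} (hδ : 0 < δ) :
    ∃ C : ℝ, 0 < C ∧ ∀ V : ℕ, 1 ≤ V →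
    ∀ N s : ℤ, (s = 1 ∨ s = -1) → ∀ A : Finset ℕ, (∀ y ∈ A, 1 ≤ y ∧ y ≤ V ∧ ∃ z : ℤ, N + s * (y : ℤ) ^ e = z ^ m) →
      (A.card : ℝ) ≤ C * (V : ℝ) ^ (1 / 2 + δ) := by
  obtain ⟨a, ha, ham⟩ : ∃ a : ℕ, (a = 2 ∨ a = 7) ∧ ((m = 2 ∧ a = 2) ∨ (m = 3 ∧ a = 7)) := by
    rcases hme with ⟨h, _⟩ | ⟨h, _⟩
    · exact ⟨2, Or.inl rfl, Or.inl ⟨h, rfl⟩⟩
    · exact ⟨7, Or.inr rfl, Or.inr ⟨h, rfl⟩⟩
  obtain ⟨F0, hF0, hF⟩ := prime_count a ha
  refine ⟨(F0 + 1 : ℝ) ^ 2 + 1536 / δ, by positivity, fun V hV N s hs A hA => ?_⟩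
  have hV1 : (1 : ℝ) ≤ V := by exact_mod_cast hV
  have hV0 : (0 : ℝ) < V := by linarith
  have hVp : (1 : ℝ) ≤ (V : ℝ) ^ (1 / 2 + δ) := Real.one_le_rpow hV1 (by linarith)
  have hAV : A ⊆ Icc 1 V := fun y hy => mem_Icc.2 ⟨(hA y hy).1, (hA y hy).2.1⟩
  set F := Nat.sqrt V with hFdef
  by_cases hsmall : F < F0
  · have h1 : A.card ≤ V := by
      have := card_le_card hAV
      simpa using this
    have h2 : V < (F + 1) ^ 2 := by
      have := Nat.lt_succ_sqrt V
      rw [Nat.succ_eq_add_one, ← hFdef] at this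
      nlinarith
    have h3 : A.card ≤ (F0 + 1) ^ 2 := by
      have : (F + 1) ^ 2 ≤ (F0 + 1) ^ 2 := Nat.pow_le_pow_left (by omega) 2
      omega
    have h4 : (A.card : ℝ) ≤ (F0 + 1 : ℝ) ^ 2 := by exact_mod_cast h3
    have h5 : 0 < 1536 / δ := by positivity
    nlinarith [sq_nonneg ((F0 : ℝ) + 1)]
  push Not at hsmall
  have hF1 := hF F hsmall
  have hFge : 2 ≤ F := by omega
  have hFr : (2 : ℝ) ≤ F := by exact_mod_cast hFge
  have hlogF : 0 < Real.log F := Real.log_pos (by linarith)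
  have hFV : (F : ℝ) ^ 2 ≤ V := by
    have := Nat.sqrt_le' V
    exact_mod_cast this
  have hsieve := sieve V F A hAV (PF a F) (by
    intro p hp
    unfold PF at hp
    simp only [mem_filter, mem_Icc] at hp
    exact ⟨hp.2.1, hp.2.2.2, hp.1.2⟩) (by
    intro p hp
    unfold PF at hp
    simp only [mem_filter, mem_Icc] at hp
    obtain ⟨⟨_, _⟩, hpr, h15, hp2⟩ := hp
    haveI : NeZero p := ⟨hpr.ne_zero⟩
    haveI : Fact p.Prime := ⟨hpr⟩
    refine ⟨univ.filter (fun y : ZMod p => ∃ z : ZMod p, (N : ZMod p) + (s : ZMod p) * y ^ e = z ^ m), ?_, ?_⟩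
    · have hpow : (univ.filter (fun x : ZMod p => ∃ z : ZMod p, x = z ^ m)).card ≤ p / 2 + 1 := by
        rcases ham with ⟨rfl, rfl⟩ | ⟨rfl, rfl⟩
        · refine le_trans (card_le_card ?_) (card_squares p)
          intro x hx
          obtain ⟨z, rfl⟩ := (mem_filter.1 hx).2
          exact mem_filter.2 ⟨mem_univ _, ⟨z, sq z⟩⟩
        · exact card_cubes' p (by omega)
      refine le_trans ?_ hpow
      apply card_le_card_of_injOn (fun y : ZMod p => (N : ZMod p) + (s : ZMod p) * y ^ e)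
      · intro y hy
        simp only [coe_filter, mem_univ, true_and, Set.mem_ofPred_eq] at hy ⊢
        exact hy
      · intro x _ y _ hxy
        simp only [add_right_inj] at hxy
        have hs0 : (s : ZMod p) ≠ 0 := by
          rcases hs with h | h <;> subst h
          · simp
          · simp
        have h2 := mul_left_cancel₀ hs0 hxy
        apply pow_inj_of_coprime p hpr e _ (by rcases hme with ⟨_, h | h⟩ | ⟨_, h⟩ <;> omega) h2
        have h3 : e = 3 → (p - 1) % 3 ≠ 0 := by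
          intro he
          rcases ham with ⟨h, h'⟩ | ⟨h, h'⟩
          · omega
          · rcases hme with ⟨h'', _⟩ | ⟨_, h''⟩ <;> omega
        have h5 : (p - 1) % 5 ≠ 0 := by
          rcases ha with h | h <;> omega
        have he : e = 3 ∨ e = 5 := by
          rcases hme with ⟨_, h | h⟩ | ⟨_, h⟩
          · exact Or.inl h
          · exact Or.inr h
          · exact Or.inr h
        rcases he with h | h
        · have h4 := h3 h
          subst h
          rw [Nat.Prime.coprime_iff_not_dvd Nat.prime_three]; omega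
        · subst h
          rw [Nat.Prime.coprime_iff_not_dvd Nat.prime_five]; omega
    · intro y hy
      obtain ⟨_, _, z, hz⟩ := hA y hy
      simp only [mem_filter, mem_univ, true_and]
      refine ⟨(z : ZMod p), ?_⟩
      have := congrArg (fun t : ℤ => (t : ZMod p)) hz
      push_cast at this
      exact this)
  have h1 : (A.card : ℝ) * (PF a F).card ≤ 24 * V := by linarith
  have h2 : (A.card : ℝ) * (F / 32) ≤ 24 * V * Real.log F := by
    calc (A.card : ℝ) * (F / 32) ≤ A.card * ((PF a F).card * Real.log F) :=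
          mul_le_mul_of_nonneg_left hF1 (Nat.cast_nonneg _)
      _ = A.card * (PF a F).card * Real.log F := by ring
      _ ≤ 24 * V * Real.log F := mul_le_mul_of_nonneg_right h1 hlogF.le
  have hsq : Real.sqrt V ≤ 2 * F := by
    have h3 : V < (F + 1) ^ 2 := by
      have := Nat.lt_succ_sqrt V
      rw [Nat.succ_eq_add_one, ← hFdef] at this
      nlinarith
    rw [Real.sqrt_le_left (by positivity)]
    have h4 : (V : ℝ) ≤ ((F : ℝ) + 1) ^ 2 := by exact_mod_cast h3.le
    nlinarith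
  have hlog : Real.log F ≤ (V : ℝ) ^ δ / δ := by
    have h4 : Real.log F ≤ Real.log V := by
      apply Real.log_le_log (by linarith)
      nlinarith
    exact h4.trans (Real.log_le_rpow_div hV0.le hδ)
  have hsqpos : 0 < Real.sqrt V := Real.sqrt_pos.2 hV0
  have hVV : (V : ℝ) = Real.sqrt V * Real.sqrt V := (Real.mul_self_sqrt hV0.le).symm
  have h5 : (A.card : ℝ) * Real.sqrt V ≤ 1536 * V * Real.log F := by
    calc (A.card : ℝ) * Real.sqrt V ≤ A.card * (2 * F) := mul_le_mul_of_nonneg_left hsq (Nat.cast_nonneg _)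
      _ = 64 * (A.card * (F / 32)) := by ring
      _ ≤ 64 * (24 * V * Real.log F) := mul_le_mul_of_nonneg_left h2 (by norm_num)
      _ = _ := by ring
  have h6 : (A.card : ℝ) ≤ 1536 * Real.sqrt V * Real.log F := by
    have : (A.card : ℝ) * Real.sqrt V ≤ (1536 * Real.sqrt V * Real.log F) * Real.sqrt V := by
      calc (A.card : ℝ) * Real.sqrt V ≤ 1536 * V * Real.log F := h5
        _ = 1536 * (Real.sqrt V * Real.sqrt V) * Real.log F := by rw [← hVV]
        _ = _ := by ring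
    exact le_of_mul_le_mul_right this hsqpos
  calc (A.card : ℝ) ≤ 1536 * Real.sqrt V * Real.log F := h6
    _ ≤ 1536 * Real.sqrt V * ((V : ℝ) ^ δ / δ) := mul_le_mul_of_nonneg_left hlog (by positivity)
    _ = 1536 / δ * (V : ℝ) ^ (1 / 2 + δ) := by
        rw [Real.rpow_add hV0, Real.sqrt_eq_rpow]
        ring
    _ ≤ _ := by
        apply mul_le_mul_of_nonneg_right _ (by linarith)
        have : 0 ≤ (F0 + 1 : ℝ) ^ 2 := by positivity
        linarith


lemma superadd (e : ℕ) (he : 2 ≤ e) (x k d : ℕ) (hk : 0 < k) (hd : 0 < d) :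
    (x + k) ^ e + (x + d) ^ e < (x + k + d) ^ e + x ^ e := by
  have key : ∀ e : ℕ, (x + k) ^ (e + 1) + (x + d) ^ (e + 1) ≤ (x + k + d) ^ (e + 1) + x ^ (e + 1) := by
    intro e
    induction e with
    | zero => simp only [zero_add, pow_one]; omega
    | succ e ih =>
      have h1 : (x + k) ^ (e + 1) ≤ (x + k + d) ^ (e + 1) := Nat.pow_le_pow_left (by omega) _
      have h2 : (x + d) ^ (e + 1) ≤ (x + k + d) ^ (e + 1) := Nat.pow_le_pow_left (by omega) _
      calc (x + k) ^ (e + 1 + 1) + (x + d) ^ (e + 1 + 1)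
          = x * ((x + k) ^ (e + 1) + (x + d) ^ (e + 1)) + k * (x + k) ^ (e + 1) + d * (x + d) ^ (e + 1) := by ring
        _ ≤ x * ((x + k + d) ^ (e + 1) + x ^ (e + 1)) + k * (x + k + d) ^ (e + 1) + d * (x + k + d) ^ (e + 1) :=
            Nat.add_le_add (Nat.add_le_add (Nat.mul_le_mul_left _ ih) (Nat.mul_le_mul_left _ h1))
              (Nat.mul_le_mul_left _ h2)
        _ = _ := by ring
  obtain ⟨f, rfl⟩ : ∃ f, e = f + 1 + 1 := ⟨e - 2, by omega⟩
  have ih := key f
  have h1 : (x + k) ^ (f + 1) < (x + k + d) ^ (f + 1) := Nat.pow_lt_pow_left (by omega) (by omega)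
  have h2 : (x + d) ^ (f + 1) ≤ (x + k + d) ^ (f + 1) := Nat.pow_le_pow_left (by omega) _
  calc (x + k) ^ (f + 1 + 1) + (x + d) ^ (f + 1 + 1)
      = x * ((x + k) ^ (f + 1) + (x + d) ^ (f + 1)) + k * (x + k) ^ (f + 1) + d * (x + d) ^ (f + 1) := by ring
    _ < x * ((x + k + d) ^ (f + 1) + x ^ (f + 1)) + k * (x + k + d) ^ (f + 1) + d * (x + k + d) ^ (f + 1) :=
        Nat.add_lt_add_of_lt_of_le (Nat.add_lt_add_of_le_of_lt (Nat.mul_le_mul_left _ ih)
          (Nat.mul_lt_mul_of_pos_left h1 hk)) (Nat.mul_le_mul_left _ h2)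
    _ = _ := by ring

lemma sum_inj_lt (e : ℕ) (he : 2 ≤ e) {x y x' y' : ℕ} (hlt : x < x') (hxy' : x' ≤ y')
    (hd : x + y = x' + y') : x ^ e + y ^ e ≠ x' ^ e + y' ^ e := by
  obtain ⟨d, rfl⟩ : ∃ d, x' = x + d := ⟨x' - x, by omega⟩
  obtain ⟨k, rfl⟩ : ∃ k, y' = x + k := ⟨y' - x, by omega⟩
  have hy : y = x + k + d := by omega
  subst hy
  have h := superadd e he x k d (by omega) (by omega)
  omega

lemma sum_inj (e : ℕ) (he : 2 ≤ e) {x y x' y' : ℕ} (hxy : x ≤ y) (hxy' : x' ≤ y')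
    (hd : x + y = x' + y') (hc : x ^ e + y ^ e = x' ^ e + y' ^ e) : x = x' ∧ y = y' := by
  rcases lt_trichotomy x x' with h | h | h
  · exact absurd hc (sum_inj_lt e he h hxy' hd)
  · exact ⟨h, by omega⟩
  · exact absurd hc.symm (sum_inj_lt e he h hxy hd.symm)

lemma diff_inj_lt (e : ℕ) (he : 2 ≤ e) {x y x' y' : ℕ} (hlt : x < x') (hy : x < y)
    (hd : y + x' = y' + x) : y ^ e + x' ^ e ≠ y' ^ e + x ^ e := by
  obtain ⟨k, rfl⟩ : ∃ k, x' = x + k := ⟨x' - x, by omega⟩
  obtain ⟨d, rfl⟩ : ∃ d, y = x + d := ⟨y - x, by omega⟩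
  have hy' : y' = x + k + d := by omega
  subst hy'
  have h := superadd e he x k d (by omega) (by omega)
  omega

lemma diff_inj (e : ℕ) (he : 2 ≤ e) {x y x' y' : ℕ} (hy : x < y) (hy' : x' < y')
    (hd : y + x' = y' + x) (hc : y ^ e + x' ^ e = y' ^ e + x ^ e) : x = x' ∧ y = y' := by
  rcases lt_trichotomy x x' with h | h | h
  · exact absurd hc (diff_inj_lt e he h hy hd)
  · exact ⟨h, by omega⟩
  · exact absurd hc.symm (diff_inj_lt e he h hy' hd.symm)

lemma diff_card (e : ℕ) (he : 2 ≤ e) (w : ℕ) (hw : 1 ≤ w) (A : Finset (ℕ × ℕ))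
    (hA : ∀ z ∈ A, z.1 ^ e + w = z.2 ^ e) : A.card ≤ w.divisors.card := by
  have hlt : ∀ z ∈ A, z.1 < z.2 := fun z hz =>
    lt_of_pow_lt_pow_left₀ e (Nat.zero_le _) (by have := hA z hz; omega)
  apply card_le_card_of_injOn (fun z : ℕ × ℕ => z.2 - z.1)
  · intro z hz
    rw [mem_coe, Nat.mem_divisors]
    refine ⟨?_, by omega⟩
    have h1 := hA z hz
    have : w = z.2 ^ e - z.1 ^ e := by omega
    rw [this]
    exact Nat.sub_dvd_pow_sub_pow _ _ _
  · intro z hz z' hz' hEq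
    simp only at hEq
    have g := hlt z hz
    have g' := hlt z' hz'
    have h1 := hA z hz
    have h1' := hA z' hz'
    obtain ⟨g1, g2⟩ := diff_inj e he g g' (by omega) (by omega)
    exact Prod.ext g1 g2

lemma sum_card (e : ℕ) (he : 2 ≤ e) (hodd : Odd e) (w : ℕ) (hw : 1 ≤ w) (A : Finset (ℕ × ℕ))
    (hA : ∀ z ∈ A, z.1 ^ e + z.2 ^ e = w ∧ z.1 ≤ z.2) : A.card ≤ w.divisors.card := by
  apply card_le_card_of_injOn (fun z : ℕ × ℕ => z.1 + z.2)
  · intro z hz
    rw [mem_coe, Nat.mem_divisors]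
    refine ⟨?_, by omega⟩
    rw [← (hA z hz).1]
    exact Odd.nat_add_dvd_pow_add_pow _ _ hodd
  · intro z hz z' hz' hEq
    simp only at hEq
    obtain ⟨h1, h2⟩ := hA z hz
    obtain ⟨h1', h2'⟩ := hA z' hz'
    obtain ⟨g1, g2⟩ := sum_inj e he h2 h2' hEq (by omega)
    exact Prod.ext g1 g2

lemma sum_sq_card (w : ℕ) (hw : 1 ≤ w) (A : Finset (ℕ × ℕ))
    (hA : ∀ z ∈ A, z.1 ^ 2 + z.2 ^ 2 = w) : A.card ≤ 4 * w.divisors.card := by
  refine le_trans ?_ (Pool.Agent.H383.Gauss.card_A_le w hw)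
  have hfin : (Pool.Agent.H383.Gauss.A w).Finite := by
    have h1 : Set.Finite (((Icc (-(w : ℤ)) w) ×ˢ (Icc (-(w : ℤ)) w) : Finset (ℤ × ℤ)) : Set (ℤ × ℤ)) := Finset.finite_toSet _
    apply Set.Finite.of_finite_image (f := fun z : GaussianInt => (z.re, z.im))
    · refine h1.subset ?_
      rintro _ ⟨z, hz, rfl⟩
      rw [Pool.Agent.H383.Gauss.mem_A, Pool.Agent.H383.Gauss.norm_eq] at hz
      simp only [coe_product, coe_Icc, Set.mem_prod, Set.mem_Icc]
      refine ⟨⟨?_, ?_⟩, ⟨?_, ?_⟩⟩ <;> nlinarith [sq_nonneg z.re, sq_nonneg z.im, sq_nonneg (z.re - 1), sq_nonneg (z.re + 1), sq_nonneg (z.im - 1), sq_nonneg (z.im + 1)]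
    · intro z _ z' _ h
      simp only [Prod.mk.injEq] at h
      exact Zsqrtd.ext h.1 h.2
  rw [Set.ncard_eq_toFinset_card _ hfin]
  apply card_le_card_of_injOn (fun z : ℕ × ℕ => (⟨(z.1 : ℤ), (z.2 : ℤ)⟩ : GaussianInt))
  · intro z hz
    rw [Set.Finite.coe_toFinset, Pool.Agent.H383.Gauss.mem_A, Pool.Agent.H383.Gauss.norm_eq]
    have := hA z hz
    show (z.1 : ℤ) ^ 2 + (z.2 : ℤ) ^ 2 = w
    exact_mod_cast this
  · intro z _ z' _ h
    have h1 := congrArg Zsqrtd.re h
    have h2 := congrArg Zsqrtd.im h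
    simp only [Nat.cast_inj] at h1 h2
    exact Prod.ext h1 h2

/-- few representations as a sum or difference of two equal powers -/
theorem reps {δ : ℝ} (hδ : 0 < δ) : ∃ C : ℝ, 0 < C ∧ ∀ e : ℕ, (e = 2 ∨ (2 ≤ e ∧ Odd e)) → ∀ w : ℕ, 1 ≤ w →
    ∀ A : Finset (ℕ × ℕ), (∀ z ∈ A, z.1 ^ e + z.2 ^ e = w ∨ z.1 ^ e + w = z.2 ^ e ∨ z.2 ^ e + w = z.1 ^ e) →
    (A.card : ℝ) ≤ C * (w : ℝ) ^ δ := by
  obtain ⟨C, hC, h⟩ := Pool.Agent.H510R2.divisor_bound δ hδ
  refine ⟨6 * C, by positivity, fun e hee w hw A hA => ?_⟩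
  have he : 2 ≤ e := by rcases hee with h | h <;> omega
  have h1 : (A.filter fun z => z.1 ^ e + z.2 ^ e = w).card ≤ 4 * w.divisors.card := by
    rcases hee with rfl | ⟨_, hodd⟩
    · exact sum_sq_card w hw _ (fun z hz => (mem_filter.1 hz).2)
    · have k1 := sum_card e he hodd w hw ((A.filter fun z => z.1 ^ e + z.2 ^ e = w).filter fun z => z.1 ≤ z.2)
        (fun z hz => ⟨(mem_filter.1 (mem_filter.1 hz).1).2, (mem_filter.1 hz).2⟩)
      have k2 := sum_card e he hodd w hw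
        (((A.filter fun z => z.1 ^ e + z.2 ^ e = w).filter fun z => ¬ z.1 ≤ z.2).image Prod.swap) (fun z hz => by
          obtain ⟨z', hz', rfl⟩ := mem_image.1 hz
          obtain ⟨g1, g2⟩ := mem_filter.1 hz'
          have g3 := (mem_filter.1 g1).2
          simp only [Prod.fst_swap, Prod.snd_swap]
          omega)
      rw [card_image_of_injective _ Prod.swap_injective] at k2
      have k3 := Finset.card_filter_add_card_filter_not (s := A.filter fun z => z.1 ^ e + z.2 ^ e = w)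
        (fun z => z.1 ≤ z.2)
      omega
  have h2 : (A.filter fun z => z.1 ^ e + w = z.2 ^ e).card ≤ w.divisors.card :=
    diff_card e he w hw _ (fun z hz => (mem_filter.1 hz).2)
  have h3 : (A.filter fun z => z.2 ^ e + w = z.1 ^ e).card ≤ w.divisors.card := by
    have k := diff_card e he w hw ((A.filter fun z => z.2 ^ e + w = z.1 ^ e).image Prod.swap) (fun z hz => by
      obtain ⟨z', hz', rfl⟩ := mem_image.1 hz
      exact (mem_filter.1 hz').2)
    rwa [card_image_of_injective _ Prod.swap_injective] at k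
  have h4 : A ⊆ (A.filter fun z => z.1 ^ e + z.2 ^ e = w) ∪ ((A.filter fun z => z.1 ^ e + w = z.2 ^ e) ∪
      (A.filter fun z => z.2 ^ e + w = z.1 ^ e)) := by
    intro z hz
    simp only [mem_union, mem_filter]
    rcases hA z hz with g | g | g
    · exact Or.inl ⟨hz, g⟩
    · exact Or.inr (Or.inl ⟨hz, g⟩)
    · exact Or.inr (Or.inr ⟨hz, g⟩)
  have h5 : A.card ≤ 6 * w.divisors.card := by
    have g1 := card_le_card h4
    have g2 := card_union_le (A.filter fun z => z.1 ^ e + z.2 ^ e = w) ((A.filter fun z => z.1 ^ e + w = z.2 ^ e) ∪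
      (A.filter fun z => z.2 ^ e + w = z.1 ^ e))
    have g3 := card_union_le (A.filter fun z => z.1 ^ e + w = z.2 ^ e) (A.filter fun z => z.2 ^ e + w = z.1 ^ e)
    omega
  calc (A.card : ℝ) ≤ ((6 * w.divisors.card : ℕ) : ℝ) := by exact_mod_cast h5
    _ = 6 * (w.divisors.card : ℝ) := by push_cast; ring
    _ ≤ 6 * (C * (w : ℝ) ^ δ) := mul_le_mul_of_nonneg_left (h w hw) (by norm_num)
    _ = _ := by ring

end Pool.Agent.H57R3.FC
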