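import Mathlib
import Pool.Agent.H57R3.FC.B

set_option autoImplicit false

open Finset Filter Topology
open scoped Classical

namespace Pool.Agent.H57R3.FC

/-- positive `e`-th powers -/
def IsPow (e u : ℕ) : Prop := ∃ x : ℕ, 0 < x ∧ u = x ^ e

/-- one of the three numbers is the sum of the others -/
def Rel (u v w : ℕ) : Prop := u + v = w ∨ u + w = v ∨ v + w = u

/-- triples of an `m`-th, an `n`-th and a `k`-th power up to `X` with one the sum of the others -/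
noncomputable def T (m n k X : ℕ) : Finset (ℕ × ℕ × ℕ) :=
  ((Icc 1 X) ×ˢ (Icc 1 X) ×ˢ (Icc 1 X)).filter
    (fun t => IsPow m t.1 ∧ IsPow n t.2.1 ∧ IsPow k t.2.2 ∧ Rel t.1 t.2.1 t.2.2)

lemma mem_T {m n k X : ℕ} {t : ℕ × ℕ × ℕ} : t ∈ T m n k X ↔
    ((1 ≤ t.1 ∧ t.1 ≤ X) ∧ (1 ≤ t.2.1 ∧ t.2.1 ≤ X) ∧ (1 ≤ t.2.2 ∧ t.2.2 ≤ X)) ∧
      IsPow m t.1 ∧ IsPow n t.2.1 ∧ IsPow k t.2.2 ∧ Rel t.1 t.2.1 t.2.2 := by
  unfold T
  simp only [mem_filter, mem_product, mem_Icc]

lemma swap12 (m n k X : ℕ) : (T m n k X).card ≤ (T n m k X).card := by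
  apply card_le_card_of_injOn (fun t : ℕ × ℕ × ℕ => (t.2.1, t.1, t.2.2))
  · intro t ht
    rw [mem_coe, mem_T] at ht ⊢
    obtain ⟨⟨h1, h2, h3⟩, p1, p2, p3, hr⟩ := ht
    refine ⟨⟨h2, h1, h3⟩, p2, p1, p3, ?_⟩
    simp only
    unfold Rel at hr ⊢
    omega
  · rintro ⟨a, b, c⟩ _ ⟨a', b', c'⟩ _ h
    simp only [Prod.mk.injEq] at h ⊢
    exact ⟨h.2.1, h.1, h.2.2⟩

lemma swap23 (m n k X : ℕ) : (T m n k X).card ≤ (T m k n X).card := by
  apply card_le_card_of_injOn (fun t : ℕ × ℕ × ℕ => (t.1, t.2.2, t.2.1))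
  · intro t ht
    rw [mem_coe, mem_T] at ht ⊢
    obtain ⟨⟨h1, h2, h3⟩, p1, p2, p3, hr⟩ := ht
    refine ⟨⟨h1, h3, h2⟩, p1, p3, p2, ?_⟩
    simp only
    unfold Rel at hr ⊢
    omega
  · rintro ⟨a, b, c⟩ _ ⟨a', b', c'⟩ _ h
    simp only [Prod.mk.injEq] at h ⊢
    exact ⟨h.1, h.2.2, h.2.1⟩

/-- the powers up to `X` -/
noncomputable def Pw (e X : ℕ) : Finset ℕ := (Icc 1 X).filter (fun u => IsPow e u)

lemma root_le {e X x : ℕ} (he : 1 ≤ e) (hx : x ^ e ≤ X) : x ≤ ⌊(X : ℝ) ^ (1 / (e : ℝ))⌋₊ := by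
  apply Nat.le_floor
  have he' : (e : ℝ) ≠ 0 := by
    have : 0 < e := he
    positivity
  have h1 : ((x : ℝ) ^ (e : ℝ)) ≤ X := by
    rw [Real.rpow_natCast]
    exact_mod_cast hx
  calc (x : ℝ) = ((x : ℝ) ^ (e : ℝ)) ^ (1 / (e : ℝ)) := by
        rw [← Real.rpow_mul (Nat.cast_nonneg _), mul_one_div_cancel he', Real.rpow_one]
    _ ≤ _ := Real.rpow_le_rpow (by positivity) h1 (by positivity)

lemma Pw_card (e X : ℕ) (he : 1 ≤ e) : ((Pw e X).card : ℝ) ≤ (X : ℝ) ^ (1 / (e : ℝ)) := by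
  have h1 : Pw e X ⊆ (Icc 1 ⌊(X : ℝ) ^ (1 / (e : ℝ))⌋₊).image (fun x => x ^ e) := by
    intro u hu
    unfold Pw at hu
    obtain ⟨hu1, x, hx, rfl⟩ := mem_filter.1 hu
    rw [mem_image]
    exact ⟨x, mem_Icc.2 ⟨hx, root_le he (mem_Icc.1 hu1).2⟩, rfl⟩
  have h2 : (Pw e X).card ≤ ⌊(X : ℝ) ^ (1 / (e : ℝ))⌋₊ := by
    refine (card_le_card h1).trans (card_image_le.trans ?_)
    simp
  calc ((Pw e X).card : ℝ) ≤ (⌊(X : ℝ) ^ (1 / (e : ℝ))⌋₊ : ℝ) := by exact_mod_cast h2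
    _ ≤ _ := Nat.floor_le (by positivity)

/-- the type of a triple -/
noncomputable def ty (t : ℕ × ℕ × ℕ) : Fin 3 := if t.1 + t.2.1 = t.2.2 then 0 else if t.1 + t.2.2 = t.2.1 then 1 else 2

lemma ty_det {t t' : ℕ × ℕ × ℕ} (ht : Rel t.1 t.2.1 t.2.2) (ht' : Rel t'.1 t'.2.1 t'.2.2) (h : ty t = ty t')
    (h2 : t.2.1 = t'.2.1) (h3 : t.2.2 = t'.2.2) : t = t' := by
  obtain ⟨a, b, c⟩ := t
  obtain ⟨a', b', c'⟩ := t'
  simp only at h2 h3
  subst h2
  subst h3
  unfold ty at h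
  unfold Rel at ht ht'
  simp only at h ht ht'
  have : a = a' := by
    by_cases e1 : a + b = c
    · by_cases e1' : a' + b = c
      · omega
      · rw [if_pos e1, if_neg e1'] at h
        split_ifs at h <;> exact absurd h (by decide)
    · by_cases e1' : a' + b = c
      · rw [if_neg e1, if_pos e1'] at h
        split_ifs at h <;> exact absurd h (by decide)
      · rw [if_neg e1, if_neg e1'] at h
        by_cases e2 : a + c = b
        · by_cases e2' : a' + c = b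
          · omega
          · rw [if_pos e2, if_neg e2'] at h
            exact absurd h (by decide)
        · by_cases e2' : a' + c = b
          · rw [if_neg e2, if_pos e2'] at h
            exact absurd h (by decide)
          · omega
  rw [this]

/-- trivial bound -/
lemma triv (m n k X : ℕ) (hn : 1 ≤ n) (hk : 1 ≤ k) :
    ((T m n k X).card : ℝ) ≤ 3 * ((X : ℝ) ^ (1 / (n : ℝ)) * (X : ℝ) ^ (1 / (k : ℝ))) := by
  have h : (T m n k X).card ≤ ((univ : Finset (Fin 3)) ×ˢ Pw n X ×ˢ Pw k X).card := by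
    apply card_le_card_of_injOn (fun t => (ty t, t.2.1, t.2.2))
    · intro t ht
      rw [mem_coe, mem_T] at ht
      obtain ⟨⟨h1, h2, h3⟩, p1, p2, p3, hr⟩ := ht
      simp only [coe_product, coe_univ, Set.mem_prod, Set.mem_univ, true_and, mem_coe]
      exact ⟨mem_filter.2 ⟨mem_Icc.2 h2, p2⟩, mem_filter.2 ⟨mem_Icc.2 h3, p3⟩⟩
    · intro t ht t' ht' hEq
      rw [mem_coe, mem_T] at ht ht'
      simp only [Prod.mk.injEq] at hEq
      exact ty_det ht.2.2.2.2 ht'.2.2.2.2 hEq.1 hEq.2.1 hEq.2.2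
  rw [card_product, card_product, card_univ, Fintype.card_fin] at h
  calc ((T m n k X).card : ℝ) ≤ ((3 * ((Pw n X).card * (Pw k X).card) : ℕ) : ℝ) := by exact_mod_cast h
    _ = 3 * (((Pw n X).card : ℝ) * ((Pw k X).card : ℝ)) := by push_cast; ring
    _ ≤ _ := by
        apply mul_le_mul_of_nonneg_left _ (by norm_num)
        exact mul_le_mul (Pw_card n X hn) (Pw_card k X hk) (Nat.cast_nonneg _) (by positivity)

/-- fibres over the type and the third coordinate -/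
lemma fib (m n k X : ℕ) (hk : 1 ≤ k) {G : ℝ} (hG : 0 ≤ G)
    (h : ∀ c : Fin 3, ∀ w : ℕ, (((T m n k X).filter (fun t => (ty t, t.2.2) = (c, w))).card : ℝ) ≤ G) :
    ((T m n k X).card : ℝ) ≤ G * (3 * (X : ℝ) ^ (1 / (k : ℝ))) := by
  have h1 := card_le_mul_card_image (s := T m n k X) (f := fun t => (ty t, t.2.2)) ⌊G⌋₊ (by
    intro cw _
    exact Nat.le_floor (h cw.1 cw.2))
  have h2 : ((T m n k X).image (fun t => (ty t, t.2.2))).card ≤ 3 * (Pw k X).card := by
    have : (T m n k X).image (fun t => (ty t, t.2.2)) ⊆ (univ : Finset (Fin 3)) ×ˢ Pw k X := by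
      intro z hz
      obtain ⟨t, ht, rfl⟩ := mem_image.1 hz
      rw [mem_T] at ht
      obtain ⟨⟨h1, h2, h3⟩, p1, p2, p3, hr⟩ := ht
      rw [mem_product]
      exact ⟨mem_univ _, mem_filter.2 ⟨mem_Icc.2 h3, p3⟩⟩
    have h3 := card_le_card this
    rwa [card_product, card_univ, Fintype.card_fin] at h3
  calc ((T m n k X).card : ℝ) ≤ ((⌊G⌋₊ * ((T m n k X).image (fun t => (ty t, t.2.2))).card : ℕ) : ℝ) := by exact_mod_cast h1
    _ = (⌊G⌋₊ : ℝ) * (((T m n k X).image (fun t => (ty t, t.2.2))).card : ℝ) := by push_cast; rfl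
    _ ≤ G * (3 * (X : ℝ) ^ (1 / (k : ℝ))) := by
        apply mul_le_mul (Nat.floor_le hG) _ (Nat.cast_nonneg _) hG
        calc (((T m n k X).image (fun t => (ty t, t.2.2))).card : ℝ) ≤ ((3 * (Pw k X).card : ℕ) : ℝ) := by exact_mod_cast h2
          _ = 3 * ((Pw k X).card : ℝ) := by push_cast; ring
          _ ≤ _ := mul_le_mul_of_nonneg_left (Pw_card k X hk) (by norm_num)

/-- the sieve bound -/
lemma sieve_count (q n : ℕ) (hqn : (q = 2 ∧ (n = 3 ∨ n = 5)) ∨ (q = 3 ∧ n = 5)) {δ : ℝ} (hδ : 0 < δ) :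
    ∃ C : ℝ, 0 < C ∧ ∀ X : ℕ, 1 ≤ X → ∀ m k : ℕ, q ∣ m → 1 ≤ k →
      ((T m n k X).card : ℝ) ≤ C * ((X : ℝ) ^ (1 / (2 * n : ℝ) + δ) * (X : ℝ) ^ (1 / (k : ℝ))) := by
  obtain ⟨C, hC, h⟩ := value_sieve q n hqn hδ
  refine ⟨3 * C, by positivity, fun X hX m k hqm hk => ?_⟩
  have hn : 1 ≤ n := by rcases hqn with ⟨_, h | h⟩ | ⟨_, h⟩ <;> omega
  have hn0 : n ≠ 0 := by omega
  have hX1 : (1 : ℝ) ≤ X := by exact_mod_cast hX
  have hX0 : (0 : ℝ) < X := by linarith
  set V := ⌊(X : ℝ) ^ (1 / (n : ℝ))⌋₊ with hV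
  have hV1 : 1 ≤ V := by
    apply Nat.le_floor
    have : (1 : ℝ) ≤ (X : ℝ) ^ (1 / (n : ℝ)) := Real.one_le_rpow hX1 (by positivity)
    simpa using this
  have hVX : (V : ℝ) ^ (1 / 2 + δ) ≤ (X : ℝ) ^ (1 / (2 * n : ℝ) + δ) := by
    have h1 : (V : ℝ) ≤ (X : ℝ) ^ (1 / (n : ℝ)) := Nat.floor_le (by positivity)
    calc (V : ℝ) ^ (1 / 2 + δ) ≤ ((X : ℝ) ^ (1 / (n : ℝ))) ^ (1 / 2 + δ) :=
          Real.rpow_le_rpow (Nat.cast_nonneg _) h1 (by linarith)
      _ = (X : ℝ) ^ (1 / (n : ℝ) * (1 / 2 + δ)) := by rw [← Real.rpow_mul hX0.le]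
      _ ≤ (X : ℝ) ^ (1 / (2 * n : ℝ) + δ) := by
          apply Real.rpow_le_rpow_of_exponent_le hX1
          have hn' : (1 : ℝ) ≤ n := by exact_mod_cast hn
          have h2 : 1 / (n : ℝ) ≤ 1 := by
            rw [div_le_one (by linarith)]; exact hn'
          have h3 : 1 / (n : ℝ) * (1 / 2 + δ) = 1 / (2 * n : ℝ) + 1 / (n : ℝ) * δ := by
            field_simp
          rw [h3]
          have : 1 / (n : ℝ) * δ ≤ 1 * δ := mul_le_mul_of_nonneg_right h2 hδ.le
          linarith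
  have hfib := fib m n k X hk (G := C * (X : ℝ) ^ (1 / (2 * n : ℝ) + δ)) (by positivity) (by
    intro c w
    -- the roots of the second coordinate
    have hroot : ∀ t : ℕ × ℕ × ℕ, ∃ y : ℕ, t ∈ T m n k X → 0 < y ∧ t.2.1 = y ^ n := by
      intro t
      by_cases ht : t ∈ T m n k X
      · obtain ⟨y, hy⟩ := (mem_T.1 ht).2.2.1
        exact ⟨y, fun _ => hy⟩
      · exact ⟨0, fun h => absurd h ht⟩
    choose g hg using hroot
    set A := ((T m n k X).filter (fun t => (ty t, t.2.2) = (c, w))).image g with hA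
    have hcard : ((T m n k X).filter (fun t => (ty t, t.2.2) = (c, w))).card = A.card := by
      rw [hA, card_image_of_injOn]
      intro t ht t' ht' hEq
      rw [mem_coe, mem_filter] at ht ht'
      obtain ⟨h1, h2⟩ := ht
      obtain ⟨h1', h2'⟩ := ht'
      simp only [Prod.mk.injEq] at h2 h2'
      apply ty_det (mem_T.1 h1).2.2.2.2 (mem_T.1 h1').2.2.2.2 (h2.1.trans h2'.1.symm) _ (h2.2.trans h2'.2.symm)
      rw [(hg t h1).2, (hg t' h1').2]
      show g t ^ n = g t' ^ n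
      rw [hEq]
    rw [hcard]
    have key : ∃ N s : ℤ, (s = 1 ∨ s = -1) ∧ ∀ t ∈ (T m n k X).filter (fun t => (ty t, t.2.2) = (c, w)),
        (t.1 : ℤ) = N + s * (t.2.1 : ℤ) := by
      by_cases hc0 : c = 0
      · refine ⟨w, -1, Or.inr rfl, ?_⟩
        intro t ht
        obtain ⟨h1, h2⟩ := mem_filter.1 ht
        simp only [Prod.mk.injEq] at h2
        obtain ⟨h2, h3⟩ := h2
        rw [hc0] at h2
        unfold ty at h2
        by_cases e1 : t.1 + t.2.1 = t.2.2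
        · omega
        · rw [if_neg e1] at h2
          split_ifs at h2 <;> exact absurd h2 (by decide)
      · by_cases hc1 : c = 1
        · refine ⟨-w, 1, Or.inl rfl, ?_⟩
          intro t ht
          obtain ⟨h1, h2⟩ := mem_filter.1 ht
          simp only [Prod.mk.injEq] at h2
          obtain ⟨h2, h3⟩ := h2
          rw [hc1] at h2
          unfold ty at h2
          by_cases e1 : t.1 + t.2.1 = t.2.2
          · rw [if_pos e1] at h2
            exact absurd h2 (by decide)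
          · rw [if_neg e1] at h2
            by_cases e2 : t.1 + t.2.2 = t.2.1
            · omega
            · rw [if_neg e2] at h2
              exact absurd h2 (by decide)
        · refine ⟨w, 1, Or.inl rfl, ?_⟩
          intro t ht
          obtain ⟨h1, h2⟩ := mem_filter.1 ht
          simp only [Prod.mk.injEq] at h2
          obtain ⟨h2, h3⟩ := h2
          have hr := (mem_T.1 h1).2.2.2.2
          unfold ty at h2
          unfold Rel at hr
          by_cases e1 : t.1 + t.2.1 = t.2.2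
          · rw [if_pos e1] at h2
            exact absurd h2.symm hc0
          · rw [if_neg e1] at h2
            by_cases e2 : t.1 + t.2.2 = t.2.1
            · rw [if_pos e2] at h2
              exact absurd h2.symm hc1
            · omega
    obtain ⟨N, s, hs, hkey⟩ := key
    have h5 := h V hV1 N s hs A (by
      intro y hy
      obtain ⟨t, ht, rfl⟩ := mem_image.1 hy
      have ht1 := (mem_filter.1 ht).1
      obtain ⟨g1, g2⟩ := hg t ht1
      obtain ⟨⟨h1, h2, h3⟩, p1, p2, p3, hr⟩ := mem_T.1 ht1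
      refine ⟨g1, ?_, ?_⟩
      · apply root_le hn
        rw [← g2]
        exact h2.2
      · obtain ⟨x, hx, hx2⟩ := p1
        obtain ⟨m', rfl⟩ := hqm
        refine ⟨(x : ℤ) ^ m', ?_⟩
        have h6 := hkey t ht
        rw [g2, hx2] at h6
        push_cast at h6
        rw [← h6, ← pow_mul, mul_comm m' q])
    exact h5.trans (mul_le_mul_of_nonneg_left hVX hC.le))
  refine hfib.trans (le_of_eq ?_)
  ring

/-- the bound from equal exponents -/
lemma equal_count {δ : ℝ} (hδ : 0 < δ) :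
    ∃ C : ℝ, 0 < C ∧ ∀ X : ℕ, 1 ≤ X → ∀ e m n k : ℕ, (e = 2 ∨ (2 ≤ e ∧ Odd e)) → e ∣ m → e ∣ n → 1 ≤ k →
      ((T m n k X).card : ℝ) ≤ C * ((X : ℝ) ^ δ * (X : ℝ) ^ (1 / (k : ℝ))) := by
  obtain ⟨C, hC, h⟩ := reps hδ
  refine ⟨3 * C, by positivity, fun X hX e m n k he hm hn hk => ?_⟩
  have hX1 : (1 : ℝ) ≤ X := by exact_mod_cast hX
  have he2 : 2 ≤ e := by rcases he with h | h <;> omega
  have hfib := fib m n k X hk (G := C * (X : ℝ) ^ δ) (by positivity) (by
    intro c w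
    have hroot : ∀ t : ℕ × ℕ × ℕ, ∃ xy : ℕ × ℕ, t ∈ T m n k X → t.1 = xy.1 ^ e ∧ t.2.1 = xy.2 ^ e := by
      intro t
      by_cases ht : t ∈ T m n k X
      · obtain ⟨x, _, hx⟩ := (mem_T.1 ht).2.1
        obtain ⟨y, _, hy⟩ := (mem_T.1 ht).2.2.1
        obtain ⟨m', hm'⟩ := hm
        obtain ⟨n', hn'⟩ := hn
        refine ⟨(x ^ m', y ^ n'), fun _ => ⟨?_, ?_⟩⟩
        · rw [hx, hm', mul_comm, pow_mul]
        · rw [hy, hn', mul_comm, pow_mul]
      · exact ⟨(0, 0), fun h => absurd h ht⟩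
    choose g hg using hroot
    set A := ((T m n k X).filter (fun t => (ty t, t.2.2) = (c, w))).image g with hA
    have hcard : ((T m n k X).filter (fun t => (ty t, t.2.2) = (c, w))).card = A.card := by
      rw [hA, card_image_of_injOn]
      intro t ht t' ht' hEq
      rw [mem_coe, mem_filter] at ht ht'
      obtain ⟨h1, h2⟩ := ht
      obtain ⟨h1', h2'⟩ := ht'
      simp only [Prod.mk.injEq] at h2 h2'
      apply ty_det (mem_T.1 h1).2.2.2.2 (mem_T.1 h1').2.2.2.2 (h2.1.trans h2'.1.symm) _ (h2.2.trans h2'.2.symm)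
      rw [(hg t h1).2, (hg t' h1').2]
      show (g t).2 ^ e = (g t').2 ^ e
      rw [hEq]
    rw [hcard]
    rcases ((T m n k X).filter (fun t => (ty t, t.2.2) = (c, w))).eq_empty_or_nonempty with hemp | ⟨t0, ht0⟩
    · rw [hA, hemp, image_empty, card_empty]
      simp only [Nat.cast_zero]
      positivity
    have ht01 := (mem_filter.1 ht0).1
    have ht02 : t0.2.2 = w := by
      have := (mem_filter.1 ht0).2
      simp only [Prod.mk.injEq] at this
      exact this.2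
    obtain ⟨⟨_, _, hw⟩, _⟩ := mem_T.1 ht01
    rw [ht02] at hw
    have h5 := h e he w hw.1 A (by
      intro z hz
      obtain ⟨t, ht, rfl⟩ := mem_image.1 hz
      obtain ⟨ht1, ht2⟩ := mem_filter.1 ht
      simp only [Prod.mk.injEq] at ht2
      obtain ⟨g1, g2⟩ := hg t ht1
      have hr := (mem_T.1 ht1).2.2.2.2
      unfold Rel at hr
      rw [← g1, ← g2, ← ht2.2]
      omega)
    refine h5.trans (mul_le_mul_of_nonneg_left ?_ hC.le)
    apply Real.rpow_le_rpow (Nat.cast_nonneg _) _ hδ.le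
    exact_mod_cast hw.2)
  refine hfib.trans (le_of_eq ?_)
  ring

end Pool.Agent.H57R3.FC
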