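import Mathlib
import Pool.Agent.H57R3.FC.C

set_option autoImplicit false

open Finset Filter Topology
open scoped Classical

namespace Pool.Agent.H57R3.FC

lemma fin_step {X : ℕ} (hX : 1 ≤ X) {N : ℕ} {C Ct p q τ : ℝ} (h : (N : ℝ) ≤ C * ((X : ℝ) ^ p * (X : ℝ) ^ q))
    (hC : 0 ≤ C) (hCt : C ≤ Ct) (hpq : p + q ≤ τ) : (N : ℝ) ≤ Ct * (X : ℝ) ^ τ := by
  have hX1 : (1 : ℝ) ≤ X := by exact_mod_cast hX
  have hX0 : (0 : ℝ) < X := by linarith
  rw [← Real.rpow_add hX0] at h
  calc (N : ℝ) ≤ C * (X : ℝ) ^ (p + q) := h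
    _ ≤ C * (X : ℝ) ^ τ := mul_le_mul_of_nonneg_left (Real.rpow_le_rpow_of_exponent_le hX1 hpq) hC
    _ ≤ Ct * (X : ℝ) ^ τ := mul_le_mul_of_nonneg_right hCt (by positivity)

lemma inv_le {c d : ℕ} (hd : 0 < d) (h : d ≤ c) : 1 / (c : ℝ) ≤ 1 / (d : ℝ) :=
  one_div_le_one_div_of_le (by exact_mod_cast hd) (by exact_mod_cast h)

theorem sorted_bound {δ : ℝ} (hδ : 0 < δ) : ∃ C : ℝ, 0 < C ∧ ∀ X : ℕ, 1 ≤ X → ∀ a b c : ℕ, 2 ≤ a → a ≤ b → b ≤ c →
    b * c + a * c + a * b < a * b * c → ((T a b c X).card : ℝ) ≤ C * (X : ℝ) ^ (7 / 20 + δ) := by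
  obtain ⟨C1, hC1, h1⟩ := sieve_count 2 3 (Or.inl ⟨rfl, Or.inl rfl⟩) hδ
  obtain ⟨C2, hC2, h2⟩ := sieve_count 2 5 (Or.inl ⟨rfl, Or.inr rfl⟩) hδ
  obtain ⟨C3, hC3, h3⟩ := sieve_count 3 5 (Or.inr ⟨rfl, rfl⟩) hδ
  obtain ⟨C4, hC4, h4⟩ := equal_count hδ
  refine ⟨C1 + C2 + C3 + C4 + 3, by positivity, fun X hX a b c ha hab hbc hyp => ?_⟩
  by_cases htriv : 20 * (b + c) ≤ 7 * (b * c)
  · refine fin_step hX (triv a b c X (by omega) (by omega)) (by norm_num) (by linarith) ?_
    have hb : (0 : ℝ) < b := by exact_mod_cast (by omega : 0 < b)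
    have hc : (0 : ℝ) < c := by exact_mod_cast (by omega : 0 < c)
    have h5 : (20 : ℝ) * (b + c) ≤ 7 * (b * c) := by exact_mod_cast htriv
    have h6 : 1 / (b : ℝ) + 1 / (c : ℝ) ≤ 7 / 20 := by
      rw [div_add_div _ _ hb.ne' hc.ne', div_le_div_iff₀ (mul_pos hb hc) (by norm_num)]
      linarith
    linarith
  push Not at htriv
  have hb5 : b ≤ 5 := by
    by_contra hb
    push Not at hb
    nlinarith
  have hb2 : 2 ≤ b := by omega
  interval_cases b
  · -- b = 2
    interval_cases a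
    omega
  · -- b = 3
    interval_cases a
    · have hc7 : 7 ≤ c := by omega
      refine fin_step hX (h1 X hX 2 c (dvd_refl 2) (by omega)) hC1.le (by linarith) ?_
      have := inv_le (by norm_num) hc7
      push_cast at this ⊢
      linarith
    · have hc4 : 4 ≤ c := by omega
      refine fin_step hX (h4 X hX 3 3 3 c (Or.inr ⟨by norm_num, by decide⟩) (dvd_refl 3) (dvd_refl 3) (by omega))
        hC4.le (by linarith) ?_
      have := inv_le (by norm_num) hc4
      push_cast at this ⊢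
      linarith
  · -- b = 4
    interval_cases a
    · have hc5 : 5 ≤ c := by omega
      refine fin_step hX (h4 X hX 2 2 4 c (Or.inl rfl) (dvd_refl 2) (by norm_num) (by omega))
        hC4.le (by linarith) ?_
      have := inv_le (by norm_num) hc5
      push_cast at this ⊢
      linarith
    · have hcases : c = 4 ∨ c = 5 ∨ c = 6 ∨ 7 ≤ c := by omega
      rcases hcases with rfl | rfl | rfl | hc7
      · have e1 : ((T 3 4 4 X).card : ℝ) ≤ ((T 4 4 3 X).card : ℝ) := by
          exact_mod_cast (swap12 3 4 4 X).trans (swap23 4 3 4 X)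
        refine e1.trans (fin_step hX (h4 X hX 2 4 4 3 (Or.inl rfl) (by norm_num) (by norm_num) (by omega))
          hC4.le (by linarith) ?_)
        push_cast
        linarith
      · have e1 : ((T 3 4 5 X).card : ℝ) ≤ ((T 3 5 4 X).card : ℝ) := by
          exact_mod_cast swap23 3 4 5 X
        refine e1.trans (fin_step hX (h3 X hX 3 4 (dvd_refl 3) (by omega)) hC3.le (by linarith) ?_)
        push_cast
        linarith
      · have e1 : ((T 3 4 6 X).card : ℝ) ≤ ((T 3 6 4 X).card : ℝ) := by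
          exact_mod_cast swap23 3 4 6 X
        refine e1.trans (fin_step hX (h4 X hX 3 3 6 4 (Or.inr ⟨by norm_num, by decide⟩) (dvd_refl 3) (by norm_num)
          (by omega)) hC4.le (by linarith) ?_)
        push_cast
        linarith
      · have e1 : ((T 3 4 c X).card : ℝ) ≤ ((T 4 3 c X).card : ℝ) := by
          exact_mod_cast swap12 3 4 c X
        refine e1.trans (fin_step hX (h1 X hX 4 c (by norm_num) (by omega)) hC1.le (by linarith) ?_)
        have := inv_le (by norm_num) hc7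
        push_cast at this ⊢
        linarith
    · refine fin_step hX (h4 X hX 2 4 4 c (Or.inl rfl) (by norm_num) (by norm_num) (by omega))
        hC4.le (by linarith) ?_
      have := inv_le (by norm_num) hbc
      push_cast at this ⊢
      linarith
  · -- b = 5
    have h5 := inv_le (by norm_num) hbc
    push_cast at h5
    interval_cases a
    · refine fin_step hX (h2 X hX 2 c (dvd_refl 2) (by omega)) hC2.le (by linarith) ?_
      push_cast
      linarith
    · refine fin_step hX (h3 X hX 3 c (dvd_refl 3) (by omega)) hC3.le (by linarith) ?_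
      push_cast
      linarith
    · refine fin_step hX (h2 X hX 4 c (by norm_num) (by omega)) hC2.le (by linarith) ?_
      push_cast
      linarith
    · refine fin_step hX (h4 X hX 5 5 5 c (Or.inr ⟨by norm_num, by decide⟩) (dvd_refl 5) (dvd_refl 5) (by omega))
        hC4.le (by linarith) ?_
      linarith

theorem all_bound {δ : ℝ} (hδ : 0 < δ) : ∃ C : ℝ, 0 < C ∧ ∀ X : ℕ, 1 ≤ X → ∀ m n k : ℕ, 2 ≤ m → 2 ≤ n → 2 ≤ k →
    n * k + m * k + m * n < m * n * k → ((T m n k X).card : ℝ) ≤ C * (X : ℝ) ^ (7 / 20 + δ) := by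
  obtain ⟨C, hC, h⟩ := sorted_bound hδ
  refine ⟨C, hC, fun X hX m n k hm hn hk hyp => ?_⟩
  have s12 : ∀ m n k : ℕ, ((T m n k X).card : ℝ) ≤ ((T n m k X).card : ℝ) := fun m n k => by
    exact_mod_cast swap12 m n k X
  have s23 : ∀ m n k : ℕ, ((T m n k X).card : ℝ) ≤ ((T m k n X).card : ℝ) := fun m n k => by
    exact_mod_cast swap23 m n k X
  rcases le_total m n with h1 | h1 <;> rcases le_total n k with h2 | h2 <;> rcases le_total m k with h3 | h3
  · exact h X hX m n k hm h1 h2 hyp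
  · exact h X hX m n k hm h1 h2 hyp
  · exact (s23 m n k).trans (h X hX m k n hm h3 h2 (by nlinarith))
  · exact ((s23 m n k).trans (s12 m k n)).trans (h X hX k m n hk h3 h1 (by nlinarith))
  · exact (s12 m n k).trans (h X hX n m k hn h1 h3 (by nlinarith))
  · exact ((s12 m n k).trans (s23 n m k)).trans (h X hX n k m hn h2 h3 (by nlinarith))
  · exact (((s12 m n k).trans (s23 n m k)).trans (s12 n k m)).trans (h X hX k n m hk h2 h1 (by nlinarith))
  · exact (((s12 m n k).trans (s23 n m k)).trans (s12 n k m)).trans (h X hX k n m hk h2 h1 (by nlinarith))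

lemma reduce {m n k M : ℕ} (hn : 2 ≤ n) (hk : 2 ≤ k) (hyp : n * k + m * k + m * n < m * n * k) (hM : 7 ≤ M)
    (hMm : M ≤ m) : n * k + M * k + M * n < M * n * k := by
  have hnk : 3 ≤ n ∨ 3 ≤ k := by
    by_contra hcon
    push Not at hcon
    have h1 : n = 2 := by omega
    have h2 : k = 2 := by omega
    subst h1
    subst h2
    omega
  zify at *
  have h6 : 7 * ((n : ℤ) + k) < 6 * (n * k) := by
    rcases hnk with h | h
    · nlinarith
    · nlinarith
  have hD : (0 : ℤ) < n * k - n - k := by nlinarith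
  have h7 : (7 : ℤ) * (n * k - n - k) ≤ M * (n * k - n - k) := mul_le_mul_of_nonneg_right hM hD.le
  nlinarith

lemma reduce_min {m n k M : ℕ} (hn : 2 ≤ n) (hk : 2 ≤ k) (hyp : n * k + m * k + m * n < m * n * k) (hM : 7 ≤ M) :
    n * k + (min m M) * k + (min m M) * n < (min m M) * n * k := by
  rcases le_total m M with h | h
  · rw [min_eq_left h]; exact hyp
  · rw [min_eq_right h]; exact reduce hn hk hyp hM h

lemma IsPow_min {a m X L : ℕ} (ha : 0 < a) (h : a ^ m ≤ X) (hL : Nat.log 2 X + 1 ≤ L) :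
    IsPow (min m L) (a ^ m) := by
  rcases le_total m L with h1 | h1
  · rw [min_eq_left h1]; exact ⟨a, ha, rfl⟩
  · rw [min_eq_right h1]
    have ha1 : a = 1 := by
      by_contra hne
      have h2 : 2 ≤ a := by omega
      have h3 : 2 ^ (Nat.log 2 X + 1) ≤ a ^ m :=
        (Nat.pow_le_pow_right (by norm_num) (by omega : Nat.log 2 X + 1 ≤ m)).trans (Nat.pow_le_pow_left h2 m)
      have h4 : X < 2 ^ (Nat.log 2 X + 1) := Nat.lt_pow_succ_log_self (by norm_num) X
      omega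
    subst ha1
    exact ⟨1, one_pos, by simp⟩

/-- the union bound over the exponents -/
theorem final {δ : ℝ} (hδ : 0 < δ) : ∃ C : ℝ, 0 < C ∧ ∀ X : ℕ, 1 ≤ X → ∀ F : Finset (ℕ × ℕ × ℕ),
    (∀ t ∈ F, ∃ a b c m n k : ℕ, 0 < a ∧ 0 < b ∧ 0 < c ∧ 0 < m ∧ 0 < n ∧ 0 < k ∧
      1 / (m : ℝ) + 1 / (n : ℝ) + 1 / (k : ℝ) < 1 ∧ a ^ m + b ^ n = c ^ k ∧ t = (a ^ m, b ^ n, c ^ k) ∧ c ^ k ≤ X) →
    (F.card : ℝ) ≤ C * (X : ℝ) ^ (7 / 20 + δ) := by
  obtain ⟨C, hC, h⟩ := all_bound (half_pos hδ)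
  set K : ℝ := 8 + 1 / (δ / 6 * Real.log 2) with hK
  have hlog2 : 0 < Real.log 2 := Real.log_pos (by norm_num)
  have hK0 : 0 < K := by positivity
  refine ⟨K ^ 3 * C, by positivity, fun X hX F hF => ?_⟩
  have hX1 : (1 : ℝ) ≤ X := by exact_mod_cast hX
  have hX0 : (0 : ℝ) < X := by linarith
  set L : ℕ := Nat.log 2 X + 8 with hL
  have hLK : (L : ℝ) ≤ K * (X : ℝ) ^ (δ / 6) := by
    have h1 : (Nat.log 2 X : ℝ) ≤ Real.logb 2 X := Real.natLog_le_logb X 2
    have h2 : Real.logb 2 X ≤ (X : ℝ) ^ (δ / 6) * (1 / (δ / 6 * Real.log 2)) := by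
      rw [Real.logb]
      have := Real.log_le_rpow_div hX0.le (by linarith : 0 < δ / 6)
      rw [div_le_iff₀ hlog2]
      calc Real.log X ≤ (X : ℝ) ^ (δ / 6) / (δ / 6) := this
        _ = (X : ℝ) ^ (δ / 6) * (1 / (δ / 6 * Real.log 2)) * Real.log 2 := by
            field_simp
    have h3 : (1 : ℝ) ≤ (X : ℝ) ^ (δ / 6) := Real.one_le_rpow hX1 (by linarith)
    rw [hL]
    push_cast
    calc (Nat.log 2 X : ℝ) + 8 ≤ (X : ℝ) ^ (δ / 6) * (1 / (δ / 6 * Real.log 2)) + 8 * (X : ℝ) ^ (δ / 6) := by linarith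
      _ = K * (X : ℝ) ^ (δ / 6) := by rw [hK]; ring
  set E : Finset (ℕ × ℕ × ℕ) := ((Icc 1 L) ×ˢ (Icc 1 L) ×ˢ (Icc 1 L)).filter
    (fun e => 2 ≤ e.1 ∧ 2 ≤ e.2.1 ∧ 2 ≤ e.2.2 ∧ e.2.1 * e.2.2 + e.1 * e.2.2 + e.1 * e.2.1 < e.1 * e.2.1 * e.2.2) with hE
  have hsub : F ⊆ E.biUnion (fun e => T e.1 e.2.1 e.2.2 X) := by
    intro t ht
    obtain ⟨a, b, c, m, n, k, ha, hb, hc, hm, hn, hk, hyp, heq, rfl, hcX⟩ := hF t ht
    have hm' : (0 : ℝ) < m := by exact_mod_cast hm
    have hn' : (0 : ℝ) < n := by exact_mod_cast hn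
    have hk' : (0 : ℝ) < k := by exact_mod_cast hk
    have im : 0 < 1 / (m : ℝ) := by positivity
    have in' : 0 < 1 / (n : ℝ) := by positivity
    have ik : 0 < 1 / (k : ℝ) := by positivity
    have two : ∀ j : ℕ, 0 < j → 1 / (j : ℝ) < 1 → 2 ≤ j := by
      intro j hj h1
      by_contra hcon
      have : j = 1 := by omega
      rw [this] at h1
      norm_num at h1
    have hm2 := two m hm (by linarith)
    have hn2 := two n hn (by linarith)
    have hk2 := two k hk (by linarith)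
    have hypN : n * k + m * k + m * n < m * n * k := by
      have h1 : (n * k + m * k + m * n : ℝ) < m * n * k := by
        have h2 : 1 / (m : ℝ) + 1 / (n : ℝ) + 1 / (k : ℝ) = (n * k + m * k + m * n) / (m * n * k) := by
          field_simp
        rw [h2, div_lt_one (by positivity)] at hyp
        exact hyp
      exact_mod_cast h1
    have hL7 : 7 ≤ L := by omega
    have hL1 : Nat.log 2 X + 1 ≤ L := by omega
    have hL2 : 2 ≤ L := by omega
    have r1 := reduce_min hn2 hk2 hypN hL7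
    have r2 : min n L * k + (min m L) * k + (min m L) * (min n L) < (min m L) * (min n L) * k := by
      have := reduce_min (m := n) (n := min m L) (k := k) (by omega) hk2 (by nlinarith) hL7
      nlinarith
    have r3 : min n L * min k L + (min m L) * min k L + (min m L) * (min n L) < (min m L) * (min n L) * min k L := by
      have := reduce_min (m := k) (n := min m L) (k := min n L) (by omega) (by omega) (by nlinarith) hL7
      nlinarith
    rw [mem_biUnion]
    refine ⟨(min m L, min n L, min k L), ?_, ?_⟩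
    · have m1 : 2 ≤ min m L := le_min hm2 hL2
      have n1 : 2 ≤ min n L := le_min hn2 hL2
      have k1 : 2 ≤ min k L := le_min hk2 hL2
      simp only [hE, mem_filter, mem_product, mem_Icc]
      exact ⟨⟨⟨le_trans one_le_two m1, min_le_right _ _⟩, ⟨le_trans one_le_two n1, min_le_right _ _⟩,
        ⟨le_trans one_le_two k1, min_le_right _ _⟩⟩, m1, n1, k1, r3⟩
    · rw [mem_T]
      have ha' : 0 < a ^ m := pow_pos ha m
      have hb' : 0 < b ^ n := pow_pos hb n
      have hc' : 0 < c ^ k := pow_pos hc k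
      have hAX : a ^ m ≤ X := le_trans (Nat.le_add_right _ _) (heq.le.trans hcX)
      have hBX : b ^ n ≤ X := le_trans (Nat.le_add_left _ _) (heq.le.trans hcX)
      exact ⟨⟨⟨ha', hAX⟩, ⟨hb', hBX⟩, ⟨hc', hcX⟩⟩, IsPow_min ha hAX hL1, IsPow_min hb hBX hL1,
        IsPow_min hc hcX hL1, Or.inl heq⟩
  have hEcard : (E.card : ℝ) ≤ (L : ℝ) ^ 3 := by
    have h1 : E.card ≤ L ^ 3 := by
      refine (card_filter_le _ _).trans ?_
      rw [card_product, card_product, Nat.card_Icc, Nat.add_sub_cancel]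
      exact le_of_eq (by ring)
    exact_mod_cast h1
  calc (F.card : ℝ) ≤ ((E.biUnion (fun e => T e.1 e.2.1 e.2.2 X)).card : ℝ) := by exact_mod_cast card_le_card hsub
    _ ≤ ((∑ e ∈ E, (T e.1 e.2.1 e.2.2 X).card : ℕ) : ℝ) := by exact_mod_cast card_biUnion_le
    _ = ∑ e ∈ E, ((T e.1 e.2.1 e.2.2 X).card : ℝ) := by push_cast; rfl
    _ ≤ ∑ e ∈ E, C * (X : ℝ) ^ (7 / 20 + δ / 2) := by
        apply sum_le_sum
        intro e he
        rw [hE] at he
        obtain ⟨_, h2, h3, h4, h5⟩ := mem_filter.1 he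
        exact h X hX e.1 e.2.1 e.2.2 h2 h3 h4 h5
    _ = E.card * (C * (X : ℝ) ^ (7 / 20 + δ / 2)) := by rw [sum_const, nsmul_eq_mul]
    _ ≤ (K * (X : ℝ) ^ (δ / 6)) ^ 3 * (C * (X : ℝ) ^ (7 / 20 + δ / 2)) := by
        apply mul_le_mul_of_nonneg_right _ (by positivity)
        exact hEcard.trans (pow_le_pow_left₀ (Nat.cast_nonneg _) hLK 3)
    _ = K ^ 3 * C * (X : ℝ) ^ (7 / 20 + δ) := by
        rw [mul_pow, ← Real.rpow_natCast ((X : ℝ) ^ (δ / 6)) 3, ← Real.rpow_mul hX0.le]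
        have e1 : (X : ℝ) ^ (7 / 20 + δ) = (X : ℝ) ^ (δ / 6 * ((3 : ℕ) : ℝ)) * (X : ℝ) ^ (7 / 20 + δ / 2) := by
          rw [← Real.rpow_add hX0]
          congr 1
          push_cast
          ring
        rw [e1]
        ring

end Pool.Agent.H57R3.FC
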