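import Mathlib
import Pool.Agent.H57R3.FC.C

set_option autoImplicit false

open Finset Filter Topology
open scoped Classical

namespace Pool.Agent.H57R3.FC

lemma sum_fourth (p : ℕ) [hp : Fact p.Prime] (h4 : p % 4 = 3) {M : Type*} [AddCommMonoid M] (f : ZMod p → M) :
    ∑ y : ZMod p, f (y ^ 4) = ∑ y : ZMod p, f (y ^ 2) := by
  have hnr : ¬ IsSquare (-1 : ZMod p) := by
    rw [ZMod.exists_sq_eq_neg_one_iff]
    simp [h4]
  have hp2 : ringChar (ZMod p) ≠ 2 := by
    rw [ZMod.ringChar_zmod_n]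
    omega
  have hρ : quadraticChar (ZMod p) (-1) = -1 := (quadraticChar_neg_one_iff_not_isSquare).2 hnr
  set ρ : ZMod p → ℤ := fun y => quadraticChar (ZMod p) y with hρd
  have hneg : ∀ y, ρ (-y) = - ρ y := by
    intro y
    simp only [hρd]
    rw [neg_eq_neg_one_mul, map_mul, hρ]
    ring
  have hval : ∀ y : ZMod p, y ≠ 0 → ρ y = 1 ∨ ρ y = -1 := fun y hy => quadraticChar_dichotomy hy
  set σ : ZMod p → ZMod p := fun y => (ρ y : ZMod p) * y ^ 2 with hσ
  have hσρ : ∀ y, y ≠ 0 → ρ (σ y) = ρ y := by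
    intro y hy
    have h1 : ρ (y ^ 2) = 1 := by
      simp only [hρd]
      exact quadraticChar_sq_one' hy
    rcases hval y hy with h | h
    · simp only [hσ, h, Int.cast_one, one_mul, h1]
    · simp only [hσ, h, Int.cast_neg, Int.cast_one, neg_mul, one_mul, hneg, h1]
  have hinj : Function.Injective σ := by
    have h0 : ∀ y, σ y = 0 → y = 0 := by
      intro y hy
      by_contra hne
      rcases hval y hne with h | h
      · simp only [hσ, h, Int.cast_one, one_mul] at hy
        exact hne (pow_eq_zero_iff (two_ne_zero)|>.1 hy)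
      · simp only [hσ, h, Int.cast_neg, Int.cast_one, neg_mul, one_mul, neg_eq_zero] at hy
        exact hne (pow_eq_zero_iff (two_ne_zero)|>.1 hy)
    intro y z hyz
    by_cases hy : y = 0
    · subst hy
      have : σ z = 0 := by rw [← hyz]; simp [hσ]
      exact (h0 z this).symm
    by_cases hz : z = 0
    · subst hz
      have : σ y = 0 := by rw [hyz]; simp [hσ]
      exact absurd (h0 y this) hy
    have h1 : ρ y = ρ z := by rw [← hσρ y hy, ← hσρ z hz, hyz]
    have h2 : y ^ 2 = z ^ 2 := by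
      simp only [hσ] at hyz
      rw [h1] at hyz
      refine mul_left_cancel₀ ?_ hyz
      rcases hval z hz with h | h
      · rw [h]; simp
      · rw [h]; simp
    rcases sq_eq_sq_iff_eq_or_eq_neg.1 h2 with h3 | h3
    · exact h3
    · exfalso
      rw [h3, hneg] at h1
      rcases hval z hz with h | h <;> rw [h] at h1 <;> norm_num at h1
  have hb : Function.Bijective σ := Finite.injective_iff_bijective.1 hinj
  rw [← (Equiv.ofBijective σ hb).sum_comp (fun y => f (y ^ 2))]
  apply sum_congr rfl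
  intro y _
  congr 1
  show y ^ 4 = (σ y) ^ 2
  by_cases hy : y = 0
  · subst hy; simp [hσ]
  rcases hval y hy with h | h
  · simp only [hσ, h]; push_cast; ring
  · simp only [hσ, h]; push_cast; ring

lemma sum_square (p : ℕ) [hp : Fact p.Prime] (hp2 : p ≠ 2) (g : ZMod p → ℂ) :
    ∑ y : ZMod p, g (y ^ 2) = ∑ u : ZMod p, (((quadraticChar (ZMod p) u : ℤ) : ℂ) + 1) * g u := by
  have hch : ringChar (ZMod p) ≠ 2 := by
    rw [ZMod.ringChar_zmod_n]; exact hp2
  rw [← sum_fiberwise_of_maps_to (s := univ) (t := univ) (g := fun y : ZMod p => y ^ 2) (fun _ _ => mem_univ _)]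
  apply sum_congr rfl
  intro u _
  have h1 := quadraticChar_card_sqrts hch u
  have h2 : (univ.filter (fun y : ZMod p => y ^ 2 = u)).card = (({x : ZMod p | x ^ 2 = u}.toFinset).card) := by
    congr 1
    ext x
    simp
  have h3 : (((univ.filter (fun y : ZMod p => y ^ 2 = u)).card : ℕ) : ℂ) = ((quadraticChar (ZMod p) u : ℤ) : ℂ) + 1 := by
    rw [h2]
    exact_mod_cast congrArg (fun z : ℤ => (z : ℂ)) h1
  rw [← h3, ← nsmul_eq_mul, ← sum_const]
  apply sum_congr rfl
  intro y hy
  rw [(mem_filter.1 hy).2]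

lemma jac_norm (p : ℕ) [hp : Fact p.Prime] {χ φ : MulChar (ZMod p) ℂ} (hχ : χ ≠ 1) (hφ : φ ≠ 1) (hχφ : χ * φ ≠ 1) :
    ‖jacobiSum χ φ‖ = Real.sqrt p := by
  have h := jacobiSum_mul_jacobiSum_inv (F := ZMod p) (F' := ℂ) (by
    rw [ZMod.ringChar_zmod_n, ringChar.eq_zero]
    exact hp.1.ne_zero.symm) hχ hφ hχφ
  have h2 : jacobiSum χ⁻¹ φ⁻¹ = (starRingEnd ℂ) (jacobiSum χ φ) := by
    unfold jacobiSum
    rw [map_sum]
    apply sum_congr rfl
    intro x _
    rw [map_mul]
    have e1 := MulChar.star_apply' χ x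
    have e2 := MulChar.star_apply' φ (1 - x)
    rw [← e1, ← e2]
    rfl
  rw [h2, Complex.mul_conj, ZMod.card] at h
  have h3 : Complex.normSq (jacobiSum χ φ) = p := by exact_mod_cast h
  rw [← Complex.sq_norm] at h3
  rw [← h3, Real.sqrt_sq (norm_nonneg _)]

lemma char_sum (p : ℕ) [hp : Fact p.Prime] (h4 : p % 4 = 3) {χ : MulChar (ZMod p) ℂ} (hχ1 : χ ≠ 1)
    (hχ3 : χ ^ 3 = 1) (N s : ZMod p) (hN : N ≠ 0) (hs : s ≠ 0) :
    ‖∑ y : ZMod p, χ (N + s * y ^ 4)‖ ≤ Real.sqrt p := by
  have hp2 : p ≠ 2 := by omega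
  have hch : ringChar (ZMod p) ≠ 2 := by
    rw [ZMod.ringChar_zmod_n]; exact hp2
  rw [sum_fourth p h4 (fun u => χ (N + s * u)), sum_square p hp2 (fun u => χ (N + s * u))]
  simp only [add_mul, one_mul]
  rw [sum_add_distrib]
  have hbij : ∑ u : ZMod p, χ (N + s * u) = 0 := by
    have hb : Function.Bijective (fun u : ZMod p => N + s * u) := by
      apply Finite.injective_iff_bijective.1
      intro x y hxy
      simp only [add_right_inj] at hxy
      exact mul_left_cancel₀ hs hxy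
    have := (Equiv.ofBijective _ hb).sum_comp (fun u => χ u)
    rw [MulChar.sum_eq_zero_of_ne_one hχ1] at this
    exact this
  rw [hbij, add_zero]
  set ρ : MulChar (ZMod p) ℂ := (quadraticChar (ZMod p)).ringHomComp (Int.castRingHom ℂ) with hρ
  have hρa : ∀ u, ρ u = ((quadraticChar (ZMod p) u : ℤ) : ℂ) := fun u => rfl
  have hρ2 : ρ ^ 2 = 1 := by
    rw [hρ]
    have := (quadraticChar_isQuadratic (ZMod p)).sq_eq_one
    rw [MulChar.ringHomComp_pow, this, MulChar.ringHomComp_one]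
  have hρ1 : ρ ≠ 1 := by
    rw [hρ]
    exact (MulChar.ringHomComp_ne_one_iff (Int.cast_injective (α := ℂ))).2 (quadraticChar_ne_one hch)
  have hmul : ρ * χ ≠ 1 := by
    intro h
    have h5 : χ = ρ := by
      have h6 : ρ * (ρ * χ) = ρ := by rw [h, mul_one]
      rw [← mul_assoc, ← sq, hρ2, one_mul] at h6
      exact h6
    apply hρ1
    rw [h5] at hχ3
    calc ρ = ρ ^ 2 * ρ := by rw [hρ2, one_mul]
      _ = ρ ^ 3 := (pow_succ ρ 2).symm
      _ = 1 := hχ3
  have hc : -(N / s) ≠ 0 := neg_ne_zero.2 (div_ne_zero hN hs)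
  have hb : Function.Bijective (fun u : ZMod p => -(N / s) * u) := by
    apply Finite.injective_iff_bijective.1
    intro x y hxy
    exact mul_left_cancel₀ hc hxy
  have hcomp := (Equiv.ofBijective _ hb).sum_comp (fun u => ((quadraticChar (ZMod p) u : ℤ) : ℂ) * χ (N + s * u))
  have hJ : ∑ u : ZMod p, ((quadraticChar (ZMod p) u : ℤ) : ℂ) * χ (N + s * u) =
      ρ (-(N / s)) * χ N * jacobiSum ρ χ := by
    rw [← hcomp]
    unfold jacobiSum
    rw [mul_sum]
    apply sum_congr rfl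
    intro t _
    show ρ (-(N / s) * t) * χ (N + s * (-(N / s) * t)) = _
    have e1 : N + s * (-(N / s) * t) = N * (1 - t) := by
      field_simp
      ring
    rw [e1, map_mul, map_mul]
    ring
  rw [hJ, norm_mul, norm_mul, jac_norm p hρ1 hχ1 hmul]
  have n1 : ‖ρ (-(N / s))‖ ≤ 1 := DirichletCharacter.norm_le_one _ _
  have n2 : ‖χ N‖ ≤ 1 := DirichletCharacter.norm_le_one _ _
  have n3 : ‖ρ (-(N / s))‖ * ‖χ N‖ ≤ 1 := mul_le_one₀ n1 (norm_nonneg _) n2
  calc ‖ρ (-(N / s))‖ * ‖χ N‖ * Real.sqrt p ≤ 1 * Real.sqrt p := mul_le_mul_of_nonneg_right n3 (Real.sqrt_nonneg _)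
    _ = Real.sqrt p := one_mul _

lemma class34 (p : ℕ) [hp : Fact p.Prime] (h12 : p % 12 = 7) (hp49 : 49 ≤ p) (N s : ZMod p) (hs : s = 1 ∨ s = -1) :
    (univ.filter (fun y : ZMod p => ∃ z : ZMod p, N + s * y ^ 4 = z ^ 3)).card ≤ p / 2 + 1 := by
  have hs2 : s ^ 2 = 1 := by rcases hs with h | h <;> rw [h] <;> ring
  have hs0 : s ≠ 0 := by
    rcases hs with h | h <;> rw [h]
    · exact one_ne_zero
    · exact neg_ne_zero.2 one_ne_zero
  by_cases hN : N = 0
  · subst hN
    refine le_trans (card_le_card ?_) (card_cubes' p (by omega))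
    intro y hy
    obtain ⟨z, hz⟩ := (mem_filter.1 hy).2
    rw [mem_filter]
    refine ⟨mem_univ _, ?_⟩
    by_cases hy0 : y = 0
    · exact ⟨0, by rw [hy0]; ring⟩
    · refine ⟨s * z / y, ?_⟩
      rw [div_pow, mul_pow, ← hz]
      have : s ^ 3 = s := by rw [pow_succ, hs2, one_mul]
      rw [this]
      field_simp
      linear_combination (-(y ^ 4)) * hs2
  set S := univ.filter (fun y : ZMod p => ∃ z : ZMod p, N + s * y ^ 4 = z ^ 3) with hS
  set S0 := univ.filter (fun y : ZMod p => N + s * y ^ 4 = 0) with hS0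
  obtain ⟨χ, hχ⟩ := MulChar.exists_mulChar_orderOf (ZMod p) (R := ℂ) (n := 3) (by
    rw [ZMod.card]; omega) (Complex.isPrimitiveRoot_exp 3 (by norm_num))
  have hχ3 : χ ^ 3 = 1 := by rw [← hχ]; exact pow_orderOf_eq_one χ
  have hχ1 : χ ≠ 1 := by
    rintro rfl
    rw [orderOf_one] at hχ
    norm_num at hχ
  have hχ2 : χ ^ 2 ≠ 1 := by
    intro h
    have := orderOf_dvd_of_pow_eq_one h
    rw [hχ] at this
    norm_num at this
  have hχ23 : (χ ^ 2) ^ 3 = 1 := by rw [← pow_mul, mul_comm, pow_mul, hχ3, one_pow]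
  have b1 := char_sum p (by omega) hχ1 hχ3 N s hN hs0
  have b2 := char_sum p (by omega) hχ2 hχ23 N s hN hs0
  have hcube : ∀ w : ZMod p, w ≠ 0 → χ w ^ 3 = 1 := by
    intro w hw
    rw [← MulChar.pow_apply' χ (by norm_num), hχ3, MulChar.one_apply (isUnit_iff_ne_zero.2 hw)]
  have h2a : ∀ w : ZMod p, (χ ^ 2) w = χ w ^ 2 := fun w => MulChar.pow_apply' χ (by norm_num) w
  -- pointwise
  have hpt : ∀ w : ZMod p, w ≠ 0 → 0 ≤ (1 + χ w + χ w ^ 2).re := by
    intro w hw
    by_cases h1 : χ w = 1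
    · rw [h1]; norm_num
    · have h2 : (χ w - 1) * (1 + χ w + χ w ^ 2) = 0 := by
        have := hcube w hw
        linear_combination this
      rcases mul_eq_zero.1 h2 with h3 | h3
      · exact absurd (sub_eq_zero.1 h3) h1
      · rw [h3]; simp
  have hpt3 : ∀ w : ZMod p, w ≠ 0 → (∃ z : ZMod p, w = z ^ 3) → (1 + χ w + χ w ^ 2).re = 3 := by
    rintro w hw ⟨z, rfl⟩
    have hz : z ≠ 0 := by
      rintro rfl
      exact hw (by norm_num)
    have : χ (z ^ 3) = 1 := by rw [map_pow]; exact hcube z hz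
    rw [this]
    norm_num
  have hmain : 3 * ((S \ S0).card : ℝ) ≤ p + 2 * Real.sqrt p := by
    have e1 : 3 * ((S \ S0).card : ℝ) ≤ ∑ y ∈ S0ᶜ, (1 + χ (N + s * y ^ 4) + χ (N + s * y ^ 4) ^ 2).re := by
      calc 3 * ((S \ S0).card : ℝ) = ∑ y ∈ S \ S0, (3 : ℝ) := by rw [sum_const, nsmul_eq_mul, mul_comm]
        _ = ∑ y ∈ S \ S0, (1 + χ (N + s * y ^ 4) + χ (N + s * y ^ 4) ^ 2).re := by
            apply sum_congr rfl
            intro y hy
            rw [Finset.mem_sdiff] at hy
            symm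
            apply hpt3 _ _ (mem_filter.1 hy.1).2
            intro h
            exact hy.2 (mem_filter.2 ⟨mem_univ _, h⟩)
        _ ≤ _ := by
            apply sum_le_sum_of_subset_of_nonneg
            · intro y hy
              rw [Finset.mem_sdiff] at hy
              exact mem_compl.2 hy.2
            · intro y hy _
              apply hpt
              intro h
              exact (mem_compl.1 hy) (mem_filter.2 ⟨mem_univ _, h⟩)
    have e2 : ∑ y ∈ S0ᶜ, (1 + χ (N + s * y ^ 4) + χ (N + s * y ^ 4) ^ 2).re =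
        (S0ᶜ.card : ℝ) + (∑ y : ZMod p, χ (N + s * y ^ 4)).re + (∑ y : ZMod p, (χ ^ 2) (N + s * y ^ 4)).re := by
      have z1 : ∑ y : ZMod p, χ (N + s * y ^ 4) = ∑ y ∈ S0ᶜ, χ (N + s * y ^ 4) := by
        symm
        apply sum_subset (subset_univ _)
        intro y _ hy
        rw [mem_compl, not_not] at hy
        rw [(mem_filter.1 hy).2]
        exact MulChar.map_zero χ
      have z2 : ∑ y : ZMod p, (χ ^ 2) (N + s * y ^ 4) = ∑ y ∈ S0ᶜ, χ (N + s * y ^ 4) ^ 2 := by
        simp only [h2a]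
        symm
        apply sum_subset (subset_univ _)
        intro y _ hy
        rw [mem_compl, not_not] at hy
        rw [(mem_filter.1 hy).2, MulChar.map_zero χ]
        norm_num
      rw [z1, z2, Complex.re_sum, Complex.re_sum]
      simp only [Complex.add_re, Complex.one_re]
      rw [sum_add_distrib, sum_add_distrib, sum_const, nsmul_eq_mul, mul_one]
    have e3 : (S0ᶜ.card : ℝ) ≤ p := by
      have := card_le_univ S0ᶜ
      rw [ZMod.card] at this
      exact_mod_cast this
    have e4 : (∑ y : ZMod p, χ (N + s * y ^ 4)).re ≤ Real.sqrt p := (Complex.re_le_norm _).trans b1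
    have e5 : (∑ y : ZMod p, (χ ^ 2) (N + s * y ^ 4)).re ≤ Real.sqrt p := (Complex.re_le_norm _).trans b2
    linarith
  have hS0c : S0.card ≤ 4 := by
    have h1 : S0 ⊆ (Polynomial.nthRoots 4 (-(N / s))).toFinset := by
      intro y hy
      have h2 := (mem_filter.1 hy).2
      rw [Multiset.mem_toFinset, Polynomial.mem_nthRoots (by norm_num)]
      rw [← neg_div, eq_div_iff hs0]
      linear_combination h2
    exact (card_le_card h1).trans ((Multiset.toFinset_card_le _).trans (Polynomial.card_nthRoots _ _))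
  have hle : S.card ≤ (S \ S0).card + S0.card := by
    have := card_le_card_sdiff_add_card (s := S) (t := S0)
    exact this
  have ht : (7 : ℝ) ≤ Real.sqrt p := by
    apply Real.le_sqrt_of_sq_le
    have : (49 : ℝ) ≤ p := by exact_mod_cast hp49
    linarith
  have hpp : Real.sqrt p * Real.sqrt p = p := Real.mul_self_sqrt (Nat.cast_nonneg _)
  have hfin : 2 * (S.card : ℝ) ≤ p + 1 := by
    have h1 : (S.card : ℝ) ≤ ((S \ S0).card : ℝ) + S0.card := by exact_mod_cast hle
    have h2 : (S0.card : ℝ) ≤ 4 := by exact_mod_cast hS0c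
    nlinarith
  have hfin' : 2 * S.card ≤ p + 1 := by exact_mod_cast hfin
  omega

end Pool.Agent.H57R3.FC
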