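import Mathlib
import Pool.Agent.H57R3.FC.E

set_option autoImplicit false

open Finset Filter Topology

namespace Pool.Agent.H57R3.FC

/-- the primes `49 ≤ p ≤ F`, `p = 7 mod 12` -/
def PG (F : ℕ) : Finset ℕ := (Icc 1 F).filter (fun p => p.Prime ∧ p % 12 = 7 ∧ 49 ≤ p)

lemma unit12 : IsUnit ((7 : ℕ) : ZMod 12) := by decide

lemma prime_count12 :
    ∃ F0 : ℕ, 2 ≤ F0 ∧ ∀ F : ℕ, F0 ≤ F → (F : ℝ) / 32 ≤ (PG F).card * Real.log F := by
  have h := Pool.Agent.Helper923.PNT.pnt_residueClass unit12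
  have ht : (Nat.totient 12 : ℝ)⁻¹ = 1 / 4 := by
    have : Nat.totient 12 = 4 := by decide
    rw [this]; norm_num
  rw [ht] at h
  have h1 : ∀ᶠ x : ℝ in atTop, 1 / 16 < (∑ k ∈ Icc 1 ⌊x⌋₊,
      ArithmeticFunction.vonMangoldt.residueClass ((7 : ℕ) : ZMod 12) k) / x :=
    h.eventually (lt_mem_nhds (by norm_num))
  obtain ⟨C, hC⟩ := Chebyshev.psi_sub_theta_le_mul_sqrt
  obtain ⟨x0, hx0⟩ := eventually_atTop.1 h1
  refine ⟨⌈x0⌉₊ + ⌈(64 * (|C| + 240)) ^ 2⌉₊ + 2, by omega, fun F hF => ?_⟩
  have hFx : x0 ≤ F := by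
    have : ⌈x0⌉₊ ≤ F := by omega
    exact (Nat.le_ceil x0).trans (by exact_mod_cast this)
  have hFC : (64 * (|C| + 240)) ^ 2 ≤ (F : ℝ) := by
    have : ⌈(64 * (|C| + 240)) ^ 2⌉₊ ≤ F := by omega
    exact (Nat.le_ceil _).trans (by exact_mod_cast this)
  have hF2 : 2 ≤ F := by omega
  have hF0 : (0 : ℝ) < F := by
    have : 0 < F := by omega
    exact_mod_cast this
  have h2 := hx0 F hFx
  rw [Nat.floor_natCast, lt_div_iff₀ hF0] at h2
  have h3 : ∑ k ∈ Icc 1 F, ArithmeticFunction.vonMangoldt.residueClass ((7 : ℕ) : ZMod 12) k ≤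
      (PG F).card * Real.log F + (Chebyshev.psi F - Chebyshev.theta F) + 240 := by
    rw [Chebyshev.psi_sub_theta_eq_sum_not_prime, Nat.floor_natCast]
    have e1 : ((PG F).card : ℝ) * Real.log F = ∑ k ∈ Icc 1 F, if k.Prime ∧ k % 12 = 7 ∧ 49 ≤ k then Real.log F else 0 := by
      rw [← sum_filter, sum_const, nsmul_eq_mul]
      rfl
    have e2 : ∑ n ∈ Ioc 0 F with ¬ n.Prime, ArithmeticFunction.vonMangoldt n =
        ∑ k ∈ Icc 1 F, if ¬ k.Prime then ArithmeticFunction.vonMangoldt k else 0 := by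
      rw [sum_filter]
      rfl
    have e3 : (240 : ℝ) ≥ ∑ k ∈ Icc 1 F, if k < 49 then (5 : ℝ) else 0 := by
      rw [← sum_filter, sum_const, nsmul_eq_mul]
      have h1 : ((Icc 1 F).filter (fun k => k < 49)).card ≤ 48 := by
        calc ((Icc 1 F).filter (fun k => k < 49)).card ≤ (Icc 1 48).card := by
              apply card_le_card
              intro k hk
              rw [mem_filter, mem_Icc] at hk
              rw [mem_Icc]
              omega
          _ = 48 := by simp
      have h2 : (((Icc 1 F).filter (fun k => k < 49)).card : ℝ) ≤ 48 := by exact_mod_cast h1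
      linarith
    rw [e1, e2]
    refine le_trans ?_ (add_le_add_right e3 _)
    rw [← sum_add_distrib, ← sum_add_distrib]
    apply sum_le_sum
    intro k hk
    rw [mem_Icc] at hk
    have hΛ : 0 ≤ ArithmeticFunction.vonMangoldt k := ArithmeticFunction.vonMangoldt_nonneg
    have hlogF : 0 ≤ Real.log F := Real.log_nonneg (by exact_mod_cast (by omega : 1 ≤ F))
    by_cases hp : k.Prime
    · by_cases h15 : ((k : ZMod 12) = ((7 : ℕ) : ZMod 12))
      · have h15' : k % 12 = 7 := by
          rw [ZMod.natCast_eq_natCast_iff'] at h15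
          simpa using h15
        by_cases hk2 : k < 49
        · have : ArithmeticFunction.vonMangoldt.residueClass ((7 : ℕ) : ZMod 12) k ≤ 5 := by
            refine (ArithmeticFunction.vonMangoldt.residueClass_le _ _).trans ?_
            rw [ArithmeticFunction.vonMangoldt_apply_prime hp]
            have h1 : Real.log k ≤ Real.log (2 ^ 6 : ℝ) := by
              apply Real.log_le_log (by exact_mod_cast hp.pos)
              have : (k : ℝ) ≤ 49 := by exact_mod_cast hk2.le
              norm_num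
              linarith
            rw [Real.log_pow] at h1
            have := Real.log_two_lt_d9
            push_cast at h1
            linarith
          rw [if_neg (fun h => absurd h.2.2 (by omega)), if_neg (not_not.2 hp), if_pos hk2]
          linarith
        · have hk3 : 49 ≤ k := by omega
          rw [if_pos ⟨hp, h15', hk3⟩, if_neg (not_not.2 hp), if_neg hk2]
          refine (ArithmeticFunction.vonMangoldt.residueClass_le _ _).trans ?_
          rw [ArithmeticFunction.vonMangoldt_apply_prime hp]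
          have : Real.log k ≤ Real.log F := Real.log_le_log (by exact_mod_cast hp.pos) (by exact_mod_cast hk.2)
          linarith
      · have : ArithmeticFunction.vonMangoldt.residueClass ((7 : ℕ) : ZMod 12) k = 0 := by
          apply Set.indicator_of_notMem
          exact h15
        rw [this]
        split_ifs <;> positivity
    · rw [if_neg (fun h => hp h.1), if_pos hp]
      have := ArithmeticFunction.vonMangoldt.residueClass_le ((7 : ℕ) : ZMod 12) k
      split_ifs <;> linarith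
  have h4 := hC F
  have h5 : |C| + 240 ≤ Real.sqrt F / 64 := by
    rw [le_div_iff₀ (by norm_num : (0:ℝ) < 64)]
    apply Real.le_sqrt_of_sq_le
    have e : ((|C| + 240) * 64) ^ 2 = (64 * (|C| + 240)) ^ 2 := by ring
    rw [e]
    exact hFC
  have hs1 : 1 ≤ Real.sqrt F := Real.one_le_sqrt.2 (by exact_mod_cast (by omega : 1 ≤ F))
  have h6 : C * Real.sqrt F + 240 ≤ F / 64 := by
    have e : (F : ℝ) = Real.sqrt F * Real.sqrt F := (Real.mul_self_sqrt hF0.le).symm
    have h7 : C * Real.sqrt F + 240 ≤ (|C| + 240) * Real.sqrt F := by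
      have := le_abs_self C
      nlinarith
    have h8 : (|C| + 240) * Real.sqrt F ≤ Real.sqrt F / 64 * Real.sqrt F :=
      mul_le_mul_of_nonneg_right h5 (by linarith)
    calc C * Real.sqrt F + 240 ≤ Real.sqrt F / 64 * Real.sqrt F := h7.trans h8
      _ = (Real.sqrt F * Real.sqrt F) / 64 := by ring
      _ = F / 64 := by rw [← e]
  have h9 := lt_of_lt_of_le h2 h3
  clear h2 h3 hx0 h1 h
  linarith

theorem value_sieve34 {δ : ℝ} (hδ : 0 < δ) :
    ∃ C : ℝ, 0 < C ∧ ∀ V : ℕ, 1 ≤ V →
    ∀ N s : ℤ, (s = 1 ∨ s = -1) → ∀ A : Finset ℕ, (∀ y ∈ A, 1 ≤ y ∧ y ≤ V ∧ ∃ z : ℤ, N + s * (y : ℤ) ^ 4 = z ^ 3) →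
      (A.card : ℝ) ≤ C * (V : ℝ) ^ (1 / 2 + δ) := by
  obtain ⟨F0, hF0, hF⟩ := prime_count12
  refine ⟨(F0 + 1 : ℝ) ^ 2 + 1536 / δ, by positivity, fun V hV N s hs A hA => ?_⟩
  have hV1 : (1 : ℝ) ≤ V := by exact_mod_cast hV
  have hV0 : (0 : ℝ) < V := by linarith
  have hVp : (1 : ℝ) ≤ (V : ℝ) ^ (1 / 2 + δ) := Real.one_le_rpow hV1 (by linarith)
  have hAV : A ⊆ Icc 1 V := fun y hy => mem_Icc.2 ⟨(hA y hy).1, (hA y hy).2.1⟩
  set F := Nat.sqrt V with hFdef
  by_cases hsmall : F < F0
  · have h1 : A.card ≤ V := by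
      have := card_le_card hAV
      simpa using this
    have h2 : V < (F + 1) ^ 2 := by
      have := Nat.lt_succ_sqrt V
      rw [Nat.succ_eq_add_one, ← hFdef] at this
      nlinarith
    have h3 : A.card ≤ (F0 + 1) ^ 2 := by
      have : (F + 1) ^ 2 ≤ (F0 + 1) ^ 2 := Nat.pow_le_pow_left (by omega) 2
      omega
    have h4 : (A.card : ℝ) ≤ (F0 + 1 : ℝ) ^ 2 := by exact_mod_cast h3
    have h5 : 0 < 1536 / δ := by positivity
    nlinarith [sq_nonneg ((F0 : ℝ) + 1)]
  push Not at hsmall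
  have hF1 := hF F hsmall
  have hFge : 2 ≤ F := by omega
  have hFr : (2 : ℝ) ≤ F := by exact_mod_cast hFge
  have hlogF : 0 < Real.log F := Real.log_pos (by linarith)
  have hFV : (F : ℝ) ^ 2 ≤ V := by
    have := Nat.sqrt_le' V
    exact_mod_cast this
  have hsieve := sieve V F A hAV (PG F) (by
    intro p hp
    unfold PG at hp
    simp only [mem_filter, mem_Icc] at hp
    exact ⟨hp.2.1, by omega, hp.1.2⟩) (by
    intro p hp
    unfold PG at hp
    simp only [mem_filter, mem_Icc] at hp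
    obtain ⟨⟨_, _⟩, hpr, h15, hp2⟩ := hp
    haveI : NeZero p := ⟨hpr.ne_zero⟩
    haveI : Fact p.Prime := ⟨hpr⟩
    refine ⟨univ.filter (fun y : ZMod p => ∃ z : ZMod p, (N : ZMod p) + (s : ZMod p) * y ^ 4 = z ^ 3), ?_, ?_⟩
    · apply class34 p h15 hp2
      rcases hs with h | h <;> subst h <;> simp
    · intro y hy
      obtain ⟨_, _, z, hz⟩ := hA y hy
      simp only [mem_filter, mem_univ, true_and]
      refine ⟨(z : ZMod p), ?_⟩
      have := congrArg (fun t : ℤ => (t : ZMod p)) hz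
      push_cast at this
      exact this)
  have h1 : (A.card : ℝ) * (PG F).card ≤ 24 * V := by linarith
  have h2 : (A.card : ℝ) * (F / 32) ≤ 24 * V * Real.log F := by
    calc (A.card : ℝ) * (F / 32) ≤ A.card * ((PG F).card * Real.log F) :=
          mul_le_mul_of_nonneg_left hF1 (Nat.cast_nonneg _)
      _ = A.card * (PG F).card * Real.log F := by ring
      _ ≤ 24 * V * Real.log F := mul_le_mul_of_nonneg_right h1 hlogF.le
  have hsq : Real.sqrt V ≤ 2 * F := by
    have h3 : V < (F + 1) ^ 2 := by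
      have := Nat.lt_succ_sqrt V
      rw [Nat.succ_eq_add_one, ← hFdef] at this
      nlinarith
    rw [Real.sqrt_le_left (by positivity)]
    have h4 : (V : ℝ) ≤ ((F : ℝ) + 1) ^ 2 := by exact_mod_cast h3.le
    nlinarith
  have hlog : Real.log F ≤ (V : ℝ) ^ δ / δ := by
    have h4 : Real.log F ≤ Real.log V := by
      apply Real.log_le_log (by linarith)
      nlinarith
    exact h4.trans (Real.log_le_rpow_div hV0.le hδ)
  have hsqpos : 0 < Real.sqrt V := Real.sqrt_pos.2 hV0
  have hVV : (V : ℝ) = Real.sqrt V * Real.sqrt V := (Real.mul_self_sqrt hV0.le).symm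
  have h5 : (A.card : ℝ) * Real.sqrt V ≤ 1536 * V * Real.log F := by
    calc (A.card : ℝ) * Real.sqrt V ≤ A.card * (2 * F) := mul_le_mul_of_nonneg_left hsq (Nat.cast_nonneg _)
      _ = 64 * (A.card * (F / 32)) := by ring
      _ ≤ 64 * (24 * V * Real.log F) := mul_le_mul_of_nonneg_left h2 (by norm_num)
      _ = _ := by ring
  have h6 : (A.card : ℝ) ≤ 1536 * Real.sqrt V * Real.log F := by
    have : (A.card : ℝ) * Real.sqrt V ≤ (1536 * Real.sqrt V * Real.log F) * Real.sqrt V := by
      calc (A.card : ℝ) * Real.sqrt V ≤ 1536 * V * Real.log F := h5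
        _ = 1536 * (Real.sqrt V * Real.sqrt V) * Real.log F := by rw [← hVV]
        _ = _ := by ring
    exact le_of_mul_le_mul_right this hsqpos
  calc (A.card : ℝ) ≤ 1536 * Real.sqrt V * Real.log F := h6
    _ ≤ 1536 * Real.sqrt V * ((V : ℝ) ^ δ / δ) := mul_le_mul_of_nonneg_left hlog (by positivity)
    _ = 1536 / δ * (V : ℝ) ^ (1 / 2 + δ) := by
        rw [Real.rpow_add hV0, Real.sqrt_eq_rpow]
        ring
    _ ≤ _ := by
        apply mul_le_mul_of_nonneg_right _ (by linarith)
        have : 0 ≤ (F0 + 1 : ℝ) ^ 2 := by positivity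
        linarith

end Pool.Agent.H57R3.FC
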